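import Mathlib

namespace Pool.Agent.Lib.MP_bdd9a3_nt

open Finset Real

/-- Lower Mertens-type bound with `p - 1` in the denominator. -/
theorem mertens_lower (n : ℕ) (hn : 1 ≤ n) :
    Real.log n - 1 ≤ ∑ p ∈ (Finset.Icc 1 n).filter Nat.Prime, Real.log p / ((p : ℝ) - 1) := by
  have hn0 : (0 : ℝ) < n := by exact_mod_cast hn
  -- log n! ≥ n log n - n
  have h1 : (n : ℝ) * Real.log n - n ≤ Real.log (n.factorial) := by
    have h := Real.pow_div_factorial_le_exp (n : ℝ) (by positivity) n
    have hf : (0 : ℝ) < (n.factorial : ℝ) := by exact_mod_cast n.factorial_pos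
    have h2 : Real.log ((n : ℝ) ^ n / (n.factorial : ℝ)) ≤ Real.log (Real.exp n) :=
      Real.log_le_log (by positivity) h
    rw [Real.log_div (by positivity) (by positivity), Real.log_pow, Real.log_exp] at h2
    linarith
  -- log n! = sum
  have h2 : Real.log (n.factorial) =
      ∑ p ∈ (Finset.Icc 1 n).filter Nat.Prime, (n.factorial.factorization p : ℝ) * Real.log p := by
    have h3 : (n.factorial : ℝ) = ∏ p ∈ (Finset.Icc 1 n).filter Nat.Prime,
        (p : ℝ) ^ (n.factorial.factorization p) := by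
      have h4 := Nat.prod_factorization_pow_eq_self n.factorial_ne_zero
      have h5 : n.factorial.factorization.prod (fun p k => p ^ k) =
          ∏ p ∈ (Finset.Icc 1 n).filter Nat.Prime, p ^ (n.factorial.factorization p) := by
        apply Finsupp.prod_of_support_subset
        · intro p hp
          rw [Nat.support_factorization, Nat.mem_primeFactors] at hp
          simp only [Finset.mem_filter, Finset.mem_Icc]
          exact ⟨⟨hp.1.one_lt.le, (Nat.Prime.dvd_factorial hp.1).1 hp.2.1⟩, hp.1⟩
        · intro i _; simp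
      rw [h5] at h4
      conv_lhs => rw [← h4]
      push_cast
      rfl
    rw [h3, Real.log_prod]
    · apply Finset.sum_congr rfl
      intro p hp
      rw [Real.log_pow]
    · intro p hp
      have : p ≠ 0 := (Finset.mem_filter.1 hp).2.ne_zero
      positivity
  have h3 : ∀ p ∈ (Finset.Icc 1 n).filter Nat.Prime,
      (n.factorial.factorization p : ℝ) * Real.log p ≤ n * (Real.log p / ((p : ℝ) - 1)) := by
    intro p hp
    have hp' : p.Prime := (Finset.mem_filter.1 hp).2
    have : Fact p.Prime := ⟨hp'⟩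
    have h4 := sub_one_mul_padicValNat_factorial (p := p) n
    rw [← Nat.factorization_def _ hp'] at h4
    have h5 : (p - 1) * n.factorial.factorization p ≤ n := by
      rw [h4]; exact Nat.sub_le _ _
    have hp1 : (1 : ℝ) < p := by exact_mod_cast hp'.one_lt
    have h6 : ((p : ℝ) - 1) * (n.factorial.factorization p : ℝ) ≤ n := by
      have : (((p - 1 : ℕ) : ℝ)) * (n.factorial.factorization p : ℝ) ≤ n := by exact_mod_cast h5
      rwa [Nat.cast_sub hp'.one_lt.le, Nat.cast_one] at this
    have hlog : 0 ≤ Real.log p := Real.log_nonneg hp1.le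
    have h7 : (n.factorial.factorization p : ℝ) ≤ n / ((p : ℝ) - 1) := by
      rw [le_div_iff₀ (by linarith)]; linarith
    calc (n.factorial.factorization p : ℝ) * Real.log p ≤ (n / ((p : ℝ) - 1)) * Real.log p :=
          mul_le_mul_of_nonneg_right h7 hlog
      _ = n * (Real.log p / ((p : ℝ) - 1)) := by ring
  have h4 : (n : ℝ) * Real.log n - n ≤
      n * ∑ p ∈ (Finset.Icc 1 n).filter Nat.Prime, Real.log p / ((p : ℝ) - 1) := by
    rw [Finset.mul_sum]
    calc _ ≤ _ := h1
      _ = _ := h2
      _ ≤ _ := Finset.sum_le_sum h3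
  have h5 : (n : ℝ) * (Real.log n - 1) ≤
      n * ∑ p ∈ (Finset.Icc 1 n).filter Nat.Prime, Real.log p / ((p : ℝ) - 1) := by
    linarith
  exact le_of_mul_le_mul_left h5 hn0

/-- Upper Mertens-type bound. -/
theorem mertens_upper (n : ℕ) (hn : 1 ≤ n) :
    ∑ p ∈ (Finset.Icc 1 n).filter Nat.Prime, Real.log p / (p : ℝ) ≤ Real.log n + Real.log 4 := by
  have hn0 : (0 : ℝ) < n := by exact_mod_cast hn
  have h1 : Real.log (n.factorial) ≤ n * Real.log n := by
    have h : (n.factorial : ℝ) ≤ (n : ℝ) ^ n := by exact_mod_cast n.factorial_le_pow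
    have hf : (0 : ℝ) < (n.factorial : ℝ) := by exact_mod_cast n.factorial_pos
    calc Real.log (n.factorial) ≤ Real.log ((n : ℝ) ^ n) := Real.log_le_log hf h
      _ = n * Real.log n := by rw [Real.log_pow]
  have h2 : Real.log (n.factorial) =
      ∑ p ∈ (Finset.Icc 1 n).filter Nat.Prime, (n.factorial.factorization p : ℝ) * Real.log p := by
    have h3 : (n.factorial : ℝ) = ∏ p ∈ (Finset.Icc 1 n).filter Nat.Prime,
        (p : ℝ) ^ (n.factorial.factorization p) := by
      have h4 := Nat.prod_factorization_pow_eq_self n.factorial_ne_zero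
      have h5 : n.factorial.factorization.prod (fun p k => p ^ k) =
          ∏ p ∈ (Finset.Icc 1 n).filter Nat.Prime, p ^ (n.factorial.factorization p) := by
        apply Finsupp.prod_of_support_subset
        · intro p hp
          rw [Nat.support_factorization, Nat.mem_primeFactors] at hp
          simp only [Finset.mem_filter, Finset.mem_Icc]
          exact ⟨⟨hp.1.one_lt.le, (Nat.Prime.dvd_factorial hp.1).1 hp.2.1⟩, hp.1⟩
        · intro i _; simp
      rw [h5] at h4
      conv_lhs => rw [← h4]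
      push_cast
      rfl
    rw [h3, Real.log_prod]
    · apply Finset.sum_congr rfl
      intro p hp
      rw [Real.log_pow]
    · intro p hp
      have : p ≠ 0 := (Finset.mem_filter.1 hp).2.ne_zero
      positivity
  have h3 : ∀ p ∈ (Finset.Icc 1 n).filter Nat.Prime,
      n * (Real.log p / (p : ℝ)) - Real.log p ≤ (n.factorial.factorization p : ℝ) * Real.log p := by
    intro p hp
    have hp' : p.Prime := (Finset.mem_filter.1 hp).2
    have hp1 : (1 : ℝ) < p := by exact_mod_cast hp'.one_lt
    have hlog : 0 ≤ Real.log p := Real.log_nonneg hp1.le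
    have h5 : n / p ≤ n.factorial.factorization p := by
      rw [Nat.factorization_factorial hp' (Nat.lt_succ_self _)]
      have hle : p ≤ n := (Finset.mem_Icc.1 (Finset.mem_filter.1 hp).1).2
      have : 1 ∈ Finset.Ico 1 (Nat.log p n).succ := by
        simp only [Finset.mem_Ico, le_refl, true_and]
        have : 1 ≤ Nat.log p n := by
          exact Nat.log_pos hp'.one_lt hle
        omega
      calc n / p = n / p ^ 1 := by rw [pow_one]
        _ ≤ _ := Finset.single_le_sum (f := fun i => n / p ^ i) (fun i _ => Nat.zero_le _) this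
    have h6 : (n : ℝ) / p - 1 ≤ (n.factorial.factorization p : ℝ) := by
      have h7 : (n : ℝ) / p < (n / p : ℕ) + 1 := by
        rw [div_lt_iff₀ (by linarith)]
        have := Nat.lt_div_mul_add (a := n) (b := p) hp'.pos
        have h8 : (n : ℝ) < (n / p : ℕ) * p + p := by exact_mod_cast this
        linarith
      have h8 : ((n / p : ℕ) : ℝ) ≤ (n.factorial.factorization p : ℝ) := by exact_mod_cast h5
      linarith
    calc n * (Real.log p / (p : ℝ)) - Real.log p = ((n : ℝ) / p - 1) * Real.log p := by ring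
      _ ≤ _ := mul_le_mul_of_nonneg_right h6 hlog
  have h4 : ∑ p ∈ (Finset.Icc 1 n).filter Nat.Prime, Real.log p ≤ Real.log 4 * n := by
    have h5 := Chebyshev.theta_le_log4_mul_x (x := (n : ℝ)) (by positivity)
    rw [Chebyshev.theta_eq_sum_Icc] at h5
    rw [Nat.floor_natCast] at h5
    refine le_trans ?_ h5
    apply Finset.sum_le_sum_of_subset_of_nonneg
    · intro p hp
      simp only [Finset.mem_filter, Finset.mem_Icc] at hp ⊢
      exact ⟨⟨by omega, hp.1.2⟩, hp.2⟩
    · intro p hp _
      have := (Finset.mem_filter.1 hp).2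
      exact Real.log_nonneg (by exact_mod_cast this.one_lt.le)
  have h5 : n * ∑ p ∈ (Finset.Icc 1 n).filter Nat.Prime, Real.log p / (p : ℝ) -
      ∑ p ∈ (Finset.Icc 1 n).filter Nat.Prime, Real.log p ≤ n * Real.log n := by
    rw [Finset.mul_sum, ← Finset.sum_sub_distrib]
    calc _ ≤ _ := Finset.sum_le_sum h3
      _ = _ := h2.symm
      _ ≤ _ := h1
  have h6 : n * ∑ p ∈ (Finset.Icc 1 n).filter Nat.Prime, Real.log p / (p : ℝ) ≤
      n * (Real.log n + Real.log 4) := by linarith
  exact le_of_mul_le_mul_left h6 hn0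

/-- Sum of `log p / p` over primes in `(v, v^3]`. -/
theorem mertens_range (v : ℕ) (hv : 3000 ≤ v) :
    Real.log v / 4 ≤
      ∑ p ∈ (Finset.Ioc v (v ^ 3)).filter Nat.Prime, Real.log p / (p : ℝ) := by
  have hv0 : (0 : ℝ) < v := by
    have : 0 < v := by omega
    exact_mod_cast this
  have hv1 : 1 ≤ v := by omega
  have h1 := mertens_lower (v ^ 3) (Nat.one_le_pow _ _ (by omega))
  have h2 := mertens_upper v hv1
  have hsplit : ∑ p ∈ (Finset.Icc 1 (v ^ 3)).filter Nat.Prime, Real.log p / ((p : ℝ) - 1) =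
      ∑ p ∈ (Finset.Icc 1 v).filter Nat.Prime, Real.log p / ((p : ℝ) - 1) +
      ∑ p ∈ (Finset.Ioc v (v ^ 3)).filter Nat.Prime, Real.log p / ((p : ℝ) - 1) := by
    rw [← Finset.sum_union]
    · congr 1
      ext p
      simp only [Finset.mem_filter, Finset.mem_Icc, Finset.mem_union, Finset.mem_Ioc]
      have : v ≤ v ^ 3 := Nat.le_self_pow (by norm_num) v
      constructor
      · rintro ⟨⟨h3, h4⟩, h5⟩
        by_cases h6 : p ≤ v
        · left; exact ⟨⟨h3, h6⟩, h5⟩
        · right; exact ⟨⟨by omega, h4⟩, h5⟩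
      · rintro (⟨⟨h3, h4⟩, h5⟩ | ⟨⟨h3, h4⟩, h5⟩)
        · exact ⟨⟨h3, by omega⟩, h5⟩
        · exact ⟨⟨by omega, h4⟩, h5⟩
    · rw [Finset.disjoint_left]
      intro p hp hp'
      simp only [Finset.mem_filter, Finset.mem_Icc, Finset.mem_Ioc] at hp hp'
      omega
  have hterm : ∀ p : ℕ, p.Prime → Real.log p / ((p : ℝ) - 1) ≤ 2 * (Real.log p / (p : ℝ)) := by
    intro p hp
    have hp2 : (2 : ℝ) ≤ p := by exact_mod_cast hp.two_le
    have hlog : 0 ≤ Real.log p := Real.log_nonneg (by linarith)
    rw [div_le_iff₀ (by linarith)]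
    have : 2 * (Real.log p / (p : ℝ)) * ((p : ℝ) - 1) = Real.log p * (2 * (p - 1) / p) := by
      field_simp
    rw [this]
    have h3 : 1 ≤ 2 * ((p : ℝ) - 1) / p := by
      rw [le_div_iff₀ (by linarith)]; linarith
    nlinarith
  have h3 : ∑ p ∈ (Finset.Icc 1 v).filter Nat.Prime, Real.log p / ((p : ℝ) - 1) ≤
      2 * (Real.log v + Real.log 4) := by
    calc _ ≤ ∑ p ∈ (Finset.Icc 1 v).filter Nat.Prime, 2 * (Real.log p / (p : ℝ)) :=
          Finset.sum_le_sum (fun p hp => hterm p (Finset.mem_filter.1 hp).2)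
      _ = 2 * ∑ p ∈ (Finset.Icc 1 v).filter Nat.Prime, (Real.log p / (p : ℝ)) := by
          rw [Finset.mul_sum]
      _ ≤ _ := by linarith
  have h4 : ∑ p ∈ (Finset.Ioc v (v ^ 3)).filter Nat.Prime, Real.log p / ((p : ℝ) - 1) ≤
      2 * ∑ p ∈ (Finset.Ioc v (v ^ 3)).filter Nat.Prime, Real.log p / (p : ℝ) := by
    rw [Finset.mul_sum]
    exact Finset.sum_le_sum (fun p hp => hterm p (Finset.mem_filter.1 hp).2)
  have h5 : Real.log ((v ^ 3 : ℕ) : ℝ) = 3 * Real.log v := by
    push_cast
    rw [Real.log_pow]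
    norm_num
  rw [h5, hsplit] at h1
  -- numeric: log v ≥ 2 (1 + 2 log 4)
  have hlogv : 2 * (1 + 2 * Real.log 4) ≤ Real.log v := by
    have h6 : Real.log 4 = 2 * Real.log 2 := by
      rw [show (4 : ℝ) = 2 ^ 2 by norm_num, Real.log_pow]; norm_num
    have h7 := Real.log_two_lt_d9
    have h8 : Real.log 2048 ≤ Real.log v := by
      apply Real.log_le_log (by norm_num)
      have : 2048 ≤ v := by omega
      exact_mod_cast this
    have h9 : Real.log 2048 = 11 * Real.log 2 := by
      rw [show (2048 : ℝ) = 2 ^ 11 by norm_num, Real.log_pow]; norm_num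
    have h10 := Real.log_two_gt_d9
    have h11 : Real.log 2980 ≤ Real.log v := by
      apply Real.log_le_log (by norm_num)
      have : 2980 ≤ v := by omega
      exact_mod_cast this
    rw [h6]
    nlinarith
  linarith

end Pool.Agent.Lib.MP_bdd9a3_nt
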