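import Mathlib

namespace Pool.Agent.Lib.MP_bdd9a3_nt

open Finset

/-- Number of `t < T` with `p ∣ b + M t`. -/
theorem card_dvd_le (p M T : ℕ) (hp : p.Prime) (hM : Nat.Coprime p M) (b : ℤ) :
    (((Finset.range T).filter (fun t : ℕ => (p : ℤ) ∣ b + M * t)).card : ℝ) ≤ T / p + 1 := by
  classical
  by_cases hne : ((Finset.range T).filter (fun t : ℕ => (p : ℤ) ∣ b + M * t)).Nonempty
  · obtain ⟨t0, ht0⟩ := hne
    have ht0' := (Finset.mem_filter.1 ht0).2
    have hsub : (Finset.range T).filter (fun t : ℕ => (p : ℤ) ∣ b + M * t) ⊆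
        (Finset.range T).filter (fun t : ℕ => t ≡ t0 [MOD p]) := by
      intro t ht
      rw [Finset.mem_filter] at ht ⊢
      refine ⟨ht.1, ?_⟩
      have h1 : (p : ℤ) ∣ M * ((t : ℤ) - t0) := by
        have := dvd_sub ht.2 ht0'
        have h2 : b + (M : ℤ) * t - (b + M * t0) = M * ((t : ℤ) - t0) := by ring
        rwa [h2] at this
      have h2 : (p : ℤ) ∣ (t : ℤ) - t0 := by
        have h3 : IsCoprime (p : ℤ) (M : ℤ) := Nat.isCoprime_iff_coprime.2 hM
        exact h3.dvd_of_dvd_mul_left h1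
      have h3 : (t0 : ℤ) ≡ t [ZMOD p] := by
        rw [Int.modEq_iff_dvd]; exact h2
      exact (Int.natCast_modEq_iff.1 h3).symm
    have h1 := Finset.card_le_card hsub
    have h2 : ((Finset.range T).filter (fun t : ℕ => t ≡ t0 [MOD p])).card ≤ T / p + 1 := by
      rw [← Nat.count_eq_card_filter_range]
      rw [Nat.count_modEq_card T hp.pos t0]
      split_ifs <;> omega
    have h3 : (((Finset.range T).filter (fun t : ℕ => (p : ℤ) ∣ b + M * t)).card : ℝ) ≤
        ((T / p : ℕ) : ℝ) + 1 := by exact_mod_cast h1.trans h2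
    have h4 : ((T / p : ℕ) : ℝ) ≤ (T : ℝ) / p := Nat.cast_div_le
    linarith
  · rw [Finset.not_nonempty_iff_eq_empty] at hne
    rw [hne]
    simp
    positivity

/-- One step of the sequential construction. -/
theorem exists_good_step (M T z l B : ℕ) (b : ℤ) (e : ℕ → ℤ) (Q : Finset ℕ) (c : ℝ) (hc : 0 < c)
    (hz : 1 ≤ z)
    (hM : ∀ p : ℕ, p.Prime → z < p → Nat.Coprime p M)
    (hQ : ∀ p ∈ Q, p.Prime ∧ z < p)
    (hnum : (l : ℝ) * (T * (∑ p ∈ Q, (1 : ℝ) / p) + Q.card) +
      c * l * (T / z + (1 + Real.log B)) < T) :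
    ∃ t < T, (∀ p ∈ Q, ∀ k < l, ¬ ((p : ℤ) ∣ b + M * t - e k)) ∧
      ∑ k ∈ Finset.range l, ∑ p ∈ (Finset.Ioc z B).filter
        (fun p : ℕ => p.Prime ∧ (p : ℤ) ∣ b + M * t - e k), (1 : ℝ) / p < 1 / c := by
  classical
  set PP := (Finset.Ioc z B).filter Nat.Prime with hPP
  let w : ℕ → ℝ := fun t => ∑ k ∈ Finset.range l,
    ((∑ p ∈ Q, if (p : ℤ) ∣ b + M * t - e k then (1 : ℝ) else 0) +
      c * ∑ p ∈ PP, if (p : ℤ) ∣ b + M * t - e k then (1 : ℝ) / p else 0)
  have hcount : ∀ p : ℕ, p.Prime → z < p → ∀ k, (∑ t ∈ Finset.range T,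
      if (p : ℤ) ∣ b + M * t - e k then (1 : ℝ) else 0) ≤ T / p + 1 := by
    intro p hp hzp k
    have h1 := card_dvd_le p M T hp (hM p hp hzp) (b - e k)
    rw [← Finset.sum_filter, Finset.sum_const, nsmul_eq_mul, mul_one]
    refine le_trans (le_of_eq ?_) h1
    congr 2
    ext t
    simp only [Finset.mem_filter]
    have : b + (M : ℤ) * t - e k = b - e k + M * t := by ring
    rw [this]
  have hW : ∑ t ∈ Finset.range T, w t < T := by
    have h1 : ∑ t ∈ Finset.range T, w t = ∑ k ∈ Finset.range l,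
        ((∑ p ∈ Q, ∑ t ∈ Finset.range T, if (p : ℤ) ∣ b + M * t - e k then (1 : ℝ) else 0) +
        c * ∑ p ∈ PP, ∑ t ∈ Finset.range T, if (p : ℤ) ∣ b + M * t - e k then (1 : ℝ) / p else 0) := by
      simp only [w]
      rw [Finset.sum_comm]
      apply Finset.sum_congr rfl
      intro k _
      rw [Finset.sum_add_distrib]
      congr 1
      · rw [Finset.sum_comm]
      · rw [← Finset.mul_sum]
        congr 1
        rw [Finset.sum_comm]
    rw [h1]
    have h2 : ∀ k ∈ Finset.range l,
        ((∑ p ∈ Q, ∑ t ∈ Finset.range T, if (p : ℤ) ∣ b + M * t - e k then (1 : ℝ) else 0) +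
        c * ∑ p ∈ PP, ∑ t ∈ Finset.range T, if (p : ℤ) ∣ b + M * t - e k then (1 : ℝ) / p else 0) ≤
        (T * (∑ p ∈ Q, (1 : ℝ) / p) + Q.card) + c * (T / z + (1 + Real.log B)) := by
      intro k _
      apply add_le_add
      · calc _ ≤ ∑ p ∈ Q, ((T : ℝ) / p + 1) :=
              Finset.sum_le_sum (fun p hp => hcount p (hQ p hp).1 (hQ p hp).2 k)
          _ = _ := by
              rw [Finset.sum_add_distrib, Finset.mul_sum]
              congr 1
              · apply Finset.sum_congr rfl; intro p _; ring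
              · simp
      · apply mul_le_mul_of_nonneg_left _ hc.le
        have h3 : ∀ p ∈ PP, (∑ t ∈ Finset.range T,
            if (p : ℤ) ∣ b + M * t - e k then (1 : ℝ) / p else 0) ≤
            T * ((p : ℝ) ^ 2)⁻¹ + ((p : ℝ))⁻¹ := by
          intro p hp
          rw [hPP, Finset.mem_filter, Finset.mem_Ioc] at hp
          have hp0 : (0 : ℝ) < p := by exact_mod_cast hp.2.pos
          have h4 := hcount p hp.2 hp.1.1 k
          have h5 : (∑ t ∈ Finset.range T,
            if (p : ℤ) ∣ b + M * t - e k then (1 : ℝ) / p else 0) =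
            (1 / p) * ∑ t ∈ Finset.range T,
            if (p : ℤ) ∣ b + M * t - e k then (1 : ℝ) else 0 := by
            rw [Finset.mul_sum]
            apply Finset.sum_congr rfl
            intro t _
            split_ifs <;> simp
          rw [h5]
          calc (1 / (p : ℝ)) * _ ≤ (1 / p) * (T / p + 1) :=
                mul_le_mul_of_nonneg_left h4 (by positivity)
            _ = _ := by field_simp
        calc _ ≤ ∑ p ∈ PP, (T * ((p : ℝ) ^ 2)⁻¹ + ((p : ℝ))⁻¹) := Finset.sum_le_sum h3
          _ = T * ∑ p ∈ PP, ((p : ℝ) ^ 2)⁻¹ + ∑ p ∈ PP, ((p : ℝ))⁻¹ := by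
              rw [Finset.sum_add_distrib, Finset.mul_sum]
          _ ≤ T * (1 / z) + (1 + Real.log B) := by
              apply add_le_add
              · apply mul_le_mul_of_nonneg_left _ (by positivity)
                by_cases hzB : z ≤ B
                · calc _ ≤ ∑ p ∈ Finset.Ioc z B, ((p : ℝ) ^ 2)⁻¹ :=
                        Finset.sum_le_sum_of_subset_of_nonneg (Finset.filter_subset _ _)
                          (fun i _ _ => by positivity)
                    _ ≤ (z : ℝ)⁻¹ - (B : ℝ)⁻¹ := sum_Ioc_inv_sq_le_sub (by omega) hzB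
                    _ ≤ 1 / z := by
                        have : (0 : ℝ) ≤ (B : ℝ)⁻¹ := by positivity
                        rw [one_div]; linarith
                · have : PP = ∅ := by
                    rw [hPP, Finset.Ioc_eq_empty (by omega), Finset.filter_empty]
                  rw [this]; simp
              · calc _ ≤ ∑ p ∈ Finset.Icc 1 B, ((p : ℝ))⁻¹ := by
                      apply Finset.sum_le_sum_of_subset_of_nonneg
                      · intro p hp
                        rw [hPP, Finset.mem_filter, Finset.mem_Ioc] at hp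
                        rw [Finset.mem_Icc]
                        exact ⟨hp.2.pos, hp.1.2⟩
                      · intro i _ _; positivity
                  _ = ((harmonic B : ℚ) : ℝ) := by
                      rw [harmonic_eq_sum_Icc]; push_cast; rfl
                  _ ≤ _ := harmonic_le_one_add_log B
          _ = _ := by ring
    calc _ ≤ ∑ k ∈ Finset.range l, ((T * (∑ p ∈ Q, (1 : ℝ) / p) + Q.card) +
          c * (T / z + (1 + Real.log B))) := Finset.sum_le_sum h2
      _ = (l : ℝ) * (T * (∑ p ∈ Q, (1 : ℝ) / p) + Q.card) +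
          c * l * (T / z + (1 + Real.log B)) := by
          rw [Finset.sum_const, Finset.card_range, nsmul_eq_mul]; ring
      _ < T := hnum
  -- there is t with w t < 1
  obtain ⟨t, htT, hwt⟩ : ∃ t ∈ Finset.range T, w t < 1 := by
    by_contra hcon
    push Not at hcon
    have : (T : ℝ) ≤ ∑ t ∈ Finset.range T, w t := by
      calc (T : ℝ) = ∑ t ∈ Finset.range T, (1 : ℝ) := by simp
        _ ≤ _ := Finset.sum_le_sum hcon
    linarith
  have hnn1 : ∀ k, 0 ≤ ∑ p ∈ Q, if (p : ℤ) ∣ b + M * t - e k then (1 : ℝ) else 0 := by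
    intro k; apply Finset.sum_nonneg; intro p _; split_ifs <;> norm_num
  have hnn2 : ∀ k, 0 ≤ c * ∑ p ∈ PP, if (p : ℤ) ∣ b + M * t - e k then (1 : ℝ) / p else 0 := by
    intro k; apply mul_nonneg hc.le; apply Finset.sum_nonneg; intro p _; split_ifs <;> positivity
  refine ⟨t, Finset.mem_range.1 htT, ?_, ?_⟩
  · intro p hp k hk hdvd
    have h1 : (1 : ℝ) ≤ ∑ p ∈ Q, if (p : ℤ) ∣ b + M * t - e k then (1 : ℝ) else 0 := by
      calc (1 : ℝ) = if (p : ℤ) ∣ b + M * t - e k then (1 : ℝ) else 0 := by rw [if_pos hdvd]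
        _ ≤ _ := Finset.single_le_sum
            (f := fun p : ℕ => if (p : ℤ) ∣ b + M * t - e k then (1 : ℝ) else 0)
            (fun i _ => by split_ifs <;> norm_num) hp
    have h2 : (∑ p ∈ Q, if (p : ℤ) ∣ b + M * t - e k then (1 : ℝ) else 0) +
        c * (∑ p ∈ PP, if (p : ℤ) ∣ b + M * t - e k then (1 : ℝ) / p else 0) ≤ w t :=
      Finset.single_le_sum (f := fun k =>
        ((∑ p ∈ Q, if (p : ℤ) ∣ b + M * t - e k then (1 : ℝ) else 0) +
        c * ∑ p ∈ PP, if (p : ℤ) ∣ b + M * t - e k then (1 : ℝ) / p else 0))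
        (fun i _ => add_nonneg (hnn1 i) (hnn2 i)) (Finset.mem_range.2 hk)
    have h3 := hnn2 k
    linarith
  · have h1 : ∑ k ∈ Finset.range l, (c * ∑ p ∈ PP,
        if (p : ℤ) ∣ b + M * t - e k then (1 : ℝ) / p else 0) ≤ w t := by
      apply Finset.sum_le_sum
      intro k _
      have := hnn1 k
      linarith
    rw [← Finset.mul_sum] at h1
    rw [lt_div_iff₀ hc, mul_comm]
    refine lt_of_le_of_lt (le_trans (le_of_eq ?_) h1) hwt
    congr 1
    apply Finset.sum_congr rfl
    intro k _
    rw [← Finset.sum_filter, hPP, Finset.filter_filter]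


/-- Number of prime divisors in `(z, B]` of a nonzero integer of absolute value `≤ 2 ^ m`. -/
theorem card_prime_dvd_le (z B m : ℕ) (x : ℤ) (hx : x ≠ 0) (hxm : x.natAbs ≤ 2 ^ m) :
    ((Finset.Ioc z B).filter (fun p : ℕ => p.Prime ∧ (p : ℤ) ∣ x)).card ≤ m := by
  classical
  set F := (Finset.Ioc z B).filter (fun p : ℕ => p.Prime ∧ (p : ℤ) ∣ x) with hF
  have h1 : ∏ p ∈ F, p ∣ x.natAbs := by
    apply Finset.prod_primes_dvd
    · intro p hp
      exact (Finset.mem_filter.1 hp).2.1.prime
    · intro p hp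
      have := (Finset.mem_filter.1 hp).2.2
      exact Int.natCast_dvd.1 this
  have h2 : ∏ p ∈ F, p ≤ x.natAbs := Nat.le_of_dvd (Int.natAbs_pos.2 hx) h1
  have h3 : 2 ^ F.card ≤ ∏ p ∈ F, p := by
    rw [← Finset.prod_const]
    apply Finset.prod_le_prod'
    intro p hp
    exact (Finset.mem_filter.1 hp).2.1.two_le
  have h4 : 2 ^ F.card ≤ 2 ^ m := h3.trans (h2.trans hxm)
  exact (Nat.pow_le_pow_iff_right (by norm_num)).1 h4

theorem sum_biUnion_le_sum {ι : Type*} [DecidableEq ι] (s : Finset ι) (f : ι → Finset ℕ)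
    (g : ℕ → ℝ) (hg : ∀ x, 0 ≤ g x) :
    ∑ x ∈ s.biUnion f, g x ≤ ∑ i ∈ s, ∑ x ∈ f i, g x := by
  classical
  induction s using Finset.induction with
  | empty => simp
  | insert a s ha ih =>
    rw [Finset.biUnion_insert, Finset.sum_insert ha]
    have h1 := Finset.sum_union_inter (s₁ := f a) (s₂ := s.biUnion f) (f := g)
    have h2 : 0 ≤ ∑ i ∈ f a ∩ s.biUnion f, g i := Finset.sum_nonneg (fun i _ => hg i)
    linarith

/-- the integers `e i = P ^ i + P ^ K * t i`. -/
def ev (P K : ℕ) (t : ℕ → ℕ) (i : ℕ) : ℕ := P ^ i + P ^ K * t i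

/-- Set of primes in `(z, B]` dividing some difference. -/
noncomputable def badPrimes (P K z B : ℕ) (t : ℕ → ℕ) (l : ℕ) : Finset ℕ :=
  open Classical in
  (Finset.Ioc z B).filter (fun p : ℕ => p.Prime ∧
    ∃ i j : ℕ, i < j ∧ j < l ∧ (p : ℤ) ∣ (ev P K t i : ℤ) - ev P K t j)

theorem mem_badPrimes {P K z B : ℕ} {t : ℕ → ℕ} {l p : ℕ} :
    p ∈ badPrimes P K z B t l ↔ (z < p ∧ p ≤ B) ∧ p.Prime ∧
      ∃ i j : ℕ, i < j ∧ j < l ∧ (p : ℤ) ∣ (ev P K t i : ℤ) - ev P K t j := by
  classical
  simp [badPrimes]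

theorem ev_sub_ne_zero (P K : ℕ) (hP : 2 ≤ P) (t : ℕ → ℕ) (i j : ℕ) (hij : i < j) (hj : j < K) :
    (ev P K t i : ℤ) - ev P K t j ≠ 0 := by
  intro h
  have h1 : (P : ℤ) ^ i * (1 - P ^ (j - i) + P ^ (K - i) * ((t i : ℤ) - t j)) = 0 := by
    rw [← h]
    simp only [ev]
    push_cast
    have h2 : (P : ℤ) ^ j = P ^ i * P ^ (j - i) := by rw [← pow_add]; congr 1; omega
    have h3 : (P : ℤ) ^ K = P ^ i * P ^ (K - i) := by rw [← pow_add]; congr 1; omega
    rw [h2, h3]; ring
  have hP0 : (P : ℤ) ≠ 0 := by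
    have : P ≠ 0 := by omega
    exact_mod_cast this
  rcases mul_eq_zero.1 h1 with h2 | h2
  · exact pow_ne_zero _ hP0 h2
  · have h3 : (P : ℤ) ∣ 1 := by
      have h4 : (1 : ℤ) = P ^ (j - i) - P ^ (K - i) * ((t i : ℤ) - t j) := by linarith
      rw [h4]
      apply dvd_sub
      · exact dvd_pow_self _ (by omega)
      · exact Dvd.dvd.mul_right (dvd_pow_self _ (by omega)) _
    have h4 := Int.le_of_dvd (by norm_num) h3
    have h5 : (2 : ℤ) ≤ P := by exact_mod_cast hP
    omega

/-- Main induction: sequential construction of the `t i`. -/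
theorem exists_seq (K z P T B m : ℕ) (c : ℝ) (hc : 0 < c) (hz : 1 ≤ z) (hP : 2 ≤ P)
    (hPz : ∀ p : ℕ, p.Prime → z < p → Nat.Coprime p P)
    (hB : P ^ K * T ≤ B) (hm : B ≤ 2 ^ m)
    (hnum : (K : ℝ) * (T * (K / c) + K ^ 2 * m) +
      c * K * (T / z + (1 + Real.log B)) < T) (l : ℕ) (hl : l ≤ K) :
    ∃ t : ℕ → ℕ, (∀ i < l, t i < T) ∧
      (∀ p : ℕ, p.Prime → z < p → ∀ i j i' j' : ℕ, i < j → j < l → i' < j' → j' < l →
        (p : ℤ) ∣ (ev P K t i : ℤ) - ev P K t j → (p : ℤ) ∣ (ev P K t i' : ℤ) - ev P K t j' →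
        i = i' ∧ j = j') ∧
      (∑ p ∈ badPrimes P K z B t l, (1 : ℝ) / p ≤ l / c) ∧
      ((badPrimes P K z B t l).card ≤ l * l * m) := by
  classical
  induction l with
  | zero =>
    refine ⟨fun _ => 0, by intro i hi; omega, ?_, ?_, ?_⟩
    · intro p _ _ i j i' j' _ hj; omega
    · have : badPrimes P K z B (fun _ => 0) 0 = ∅ := by
        apply Finset.eq_empty_of_forall_notMem
        intro p hp
        rw [mem_badPrimes] at hp
        obtain ⟨_, _, i, j, _, hj, _⟩ := hp
        omega
      rw [this]; simp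
    · have : badPrimes P K z B (fun _ => 0) 0 = ∅ := by
        apply Finset.eq_empty_of_forall_notMem
        intro p hp
        rw [mem_badPrimes] at hp
        obtain ⟨_, _, i, j, _, hj, _⟩ := hp
        omega
      rw [this]; simp
  | succ l ih =>
    obtain ⟨t, htT, ht1, ht2, ht3⟩ := ih (by omega)
    have hlK : (l : ℝ) ≤ K := by exact_mod_cast (by omega : l ≤ K)
    have hl0 : (0 : ℝ) ≤ l := by positivity
    set Q := badPrimes P K z B t l with hQ
    have hlogB : 0 ≤ Real.log B := Real.log_natCast_nonneg B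
    have hstep := exists_good_step (P ^ K) T z l B ((P : ℤ) ^ l) (fun k => (ev P K t k : ℤ)) Q c hc hz
      (fun p hp hzp => Nat.Coprime.pow_right K (hPz p hp hzp))
      (fun p hp => by
        rw [hQ, mem_badPrimes] at hp
        exact ⟨hp.2.1, hp.1.1⟩)
      (by
        refine lt_of_le_of_lt ?_ hnum
        apply add_le_add
        · apply mul_le_mul hlK _ (by positivity) (by positivity)
          apply add_le_add
          · apply mul_le_mul_of_nonneg_left _ (by positivity)
            exact ht2.trans (div_le_div_of_nonneg_right hlK hc.le)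
          · have h1 : (Q.card : ℝ) ≤ (l : ℝ) * l * m := by exact_mod_cast ht3
            have h2 : (l : ℝ) * l * m ≤ K ^ 2 * m := by
              apply mul_le_mul_of_nonneg_right _ (by positivity)
              nlinarith
            exact h1.trans h2
        · apply mul_le_mul_of_nonneg_right _ (by positivity)
          exact mul_le_mul_of_nonneg_left hlK hc.le)
    obtain ⟨s, hsT, hs1, hs2⟩ := hstep
    set t' := Function.update t l s with ht'
    have hevlt : ∀ k < l, ev P K t' k = ev P K t k := by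
      intro k hk
      simp only [ev, ht']
      rw [Function.update_of_ne (by omega)]
    have hevl : (ev P K t' l : ℤ) = (P : ℤ) ^ l + ((P ^ K : ℕ) : ℤ) * s := by
      simp only [ev, ht']
      rw [Function.update_self]
      push_cast
      ring
    -- e' l - e k
    have hdiff : ∀ k < l, (ev P K t' k : ℤ) - ev P K t' l =
        -((P : ℤ) ^ l + ((P ^ K : ℕ) : ℤ) * s - ev P K t k) := by
      intro k hk
      rw [hevlt k hk, hevl]; ring
    have hdvd : ∀ (p : ℕ) (k : ℕ), k < l → ((p : ℤ) ∣ (ev P K t' k : ℤ) - ev P K t' l ↔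
        (p : ℤ) ∣ (P : ℤ) ^ l + ((P ^ K : ℕ) : ℤ) * s - ev P K t k) := by
      intro p k hk
      rw [hdiff k hk, dvd_neg]
    have hevB : ∀ k, k < l + 1 → ev P K t' k ≤ B := by
      intro k hk
      have h1 : t' k < T := by
        by_cases h : k = l
        · rw [h, ht', Function.update_self]; exact hsT
        · rw [ht', Function.update_of_ne h]; exact htT k (by omega)
      calc ev P K t' k = P ^ k + P ^ K * t' k := rfl
        _ ≤ P ^ K + P ^ K * t' k := by
            apply Nat.add_le_add_right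
            exact Nat.pow_le_pow_right (by omega) (by omega)
        _ = P ^ K * (t' k + 1) := by ring
        _ ≤ P ^ K * T := Nat.mul_le_mul_left _ h1
        _ ≤ B := hB
    have habs : ∀ i j, i < j → j < l + 1 →
        ((ev P K t' i : ℤ) - ev P K t' j).natAbs ≤ B := by
      intro i j hij hj
      have h1 := hevB i (by omega)
      have h2 := hevB j hj
      omega
    have hle_B : ∀ (p : ℕ) (i j : ℕ), i < j → j < l + 1 →
        (p : ℤ) ∣ (ev P K t' i : ℤ) - ev P K t' j → p ≤ B := by
      intro p i j hij hj hd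
      have h1 := ev_sub_ne_zero P K hP t' i j hij (by omega)
      have h2 := Nat.le_of_dvd (Int.natAbs_pos.2 h1) (Int.natCast_dvd.1 hd)
      exact h2.trans (habs i j hij hj)
    -- bad primes for l + 1
    have hsub : badPrimes P K z B t' (l + 1) ⊆ Q ∪ (Finset.range l).biUnion (fun k =>
        (Finset.Ioc z B).filter (fun p : ℕ => p.Prime ∧
          (p : ℤ) ∣ (P : ℤ) ^ l + ((P ^ K : ℕ) : ℤ) * s - ev P K t k)) := by
      intro p hp
      rw [mem_badPrimes] at hp
      obtain ⟨hp1, hp2, i, j, hij, hj, hd⟩ := hp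
      rw [Finset.mem_union]
      by_cases hjl : j = l
      · right
        rw [Finset.mem_biUnion]
        refine ⟨i, Finset.mem_range.2 (by omega), ?_⟩
        rw [Finset.mem_filter, Finset.mem_Ioc]
        refine ⟨hp1, hp2, ?_⟩
        rw [hjl] at hd
        exact (hdvd p i (by omega)).1 hd
      · left
        rw [hQ, mem_badPrimes]
        refine ⟨hp1, hp2, i, j, hij, by omega, ?_⟩
        rwa [hevlt i (by omega), hevlt j (by omega)] at hd
    refine ⟨t', ?_, ?_, ?_, ?_⟩
    · intro i hi
      by_cases h : i = l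
      · rw [h, ht', Function.update_self]; exact hsT
      · rw [ht', Function.update_of_ne h]; exact htT i (by omega)
    · intro p hp hzp i j i' j' hij hj hij' hj' hd hd'
      by_cases hjl : j = l
      · by_cases hjl' : j' = l
        · subst hjl; subst hjl'
          refine ⟨?_, rfl⟩
          by_contra hne
          -- p divides e i - e i'
          have h1 : (p : ℤ) ∣ (ev P K t' i : ℤ) - ev P K t' i' := by
            have := dvd_sub hd hd'
            have h2 : (ev P K t' i : ℤ) - ev P K t' j' - ((ev P K t' i' : ℤ) - ev P K t' j') =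
              (ev P K t' i : ℤ) - ev P K t' i' := by ring
            rwa [h2] at this
          rw [hevlt i hij, hevlt i' hij'] at h1
          have h2 : p ∈ Q := by
            rcases Nat.lt_or_gt_of_ne hne with h3 | h3
            · rw [hQ, mem_badPrimes]
              refine ⟨⟨hzp, ?_⟩, hp, i, i', h3, hij', h1⟩
              exact hle_B p i i' h3 (by omega) (by rw [hevlt i hij, hevlt i' hij']; exact h1)
            · rw [hQ, mem_badPrimes]
              have h1' : (p : ℤ) ∣ (ev P K t i' : ℤ) - ev P K t i := by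
                rw [← neg_sub]; exact (dvd_neg).2 h1
              refine ⟨⟨hzp, ?_⟩, hp, i', i, h3, hij, h1'⟩
              exact hle_B p i' i h3 (by omega) (by rw [hevlt i hij, hevlt i' hij']; exact h1')
          exact hs1 p h2 i hij ((hdvd p i hij).1 hd)
        · exfalso
          subst hjl
          have h2 : p ∈ Q := by
            rw [hQ, mem_badPrimes]
            refine ⟨⟨hzp, hle_B p i' j' hij' hj' hd'⟩, hp, i', j', hij', by omega, ?_⟩
            rwa [hevlt i' (by omega), hevlt j' (by omega)] at hd'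
          exact hs1 p h2 i hij ((hdvd p i hij).1 hd)
      · by_cases hjl' : j' = l
        · exfalso
          subst hjl'
          have h2 : p ∈ Q := by
            rw [hQ, mem_badPrimes]
            refine ⟨⟨hzp, hle_B p i j hij hj hd⟩, hp, i, j, hij, by omega, ?_⟩
            rwa [hevlt i (by omega), hevlt j (by omega)] at hd
          exact hs1 p h2 i' hij' ((hdvd p i' hij').1 hd')
        · rw [hevlt i (by omega), hevlt j (by omega)] at hd
          rw [hevlt i' (by omega), hevlt j' (by omega)] at hd'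
          exact ht1 p hp hzp i j i' j' hij (by omega) hij' (by omega) hd hd'
    · calc ∑ p ∈ badPrimes P K z B t' (l + 1), (1 : ℝ) / p ≤
          ∑ p ∈ Q ∪ (Finset.range l).biUnion (fun k =>
        (Finset.Ioc z B).filter (fun p : ℕ => p.Prime ∧
          (p : ℤ) ∣ (P : ℤ) ^ l + ((P ^ K : ℕ) : ℤ) * s - ev P K t k)), (1 : ℝ) / p := by
            apply Finset.sum_le_sum_of_subset_of_nonneg hsub
            intro i _ _; positivity
        _ ≤ ∑ p ∈ Q, (1 : ℝ) / p + ∑ p ∈ (Finset.range l).biUnion (fun k =>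
        (Finset.Ioc z B).filter (fun p : ℕ => p.Prime ∧
          (p : ℤ) ∣ (P : ℤ) ^ l + ((P ^ K : ℕ) : ℤ) * s - ev P K t k)), (1 : ℝ) / p := by
            rw [← Finset.sum_union_inter]
            have : 0 ≤ ∑ i ∈ Q ∩ (Finset.range l).biUnion (fun k =>
              (Finset.Ioc z B).filter (fun p : ℕ => p.Prime ∧
              (p : ℤ) ∣ (P : ℤ) ^ l + ((P ^ K : ℕ) : ℤ) * s - ev P K t k)), (1 : ℝ) / i := by
              apply Finset.sum_nonneg; intro i _; positivity
            linarith
        _ ≤ l / c + 1 / c := by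
            apply add_le_add ht2
            refine le_trans ?_ hs2.le
            exact sum_biUnion_le_sum _ _ _ (fun x => by positivity)
        _ = ((l + 1 : ℕ) : ℝ) / c := by push_cast; ring
    · calc (badPrimes P K z B t' (l + 1)).card ≤ _ := Finset.card_le_card hsub
        _ ≤ Q.card + ((Finset.range l).biUnion (fun k =>
        (Finset.Ioc z B).filter (fun p : ℕ => p.Prime ∧
          (p : ℤ) ∣ (P : ℤ) ^ l + ((P ^ K : ℕ) : ℤ) * s - ev P K t k))).card :=
            Finset.card_union_le _ _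
        _ ≤ l * l * m + l * m := by
            apply Nat.add_le_add ht3
            calc _ ≤ ∑ k ∈ Finset.range l, ((Finset.Ioc z B).filter (fun p : ℕ => p.Prime ∧
                (p : ℤ) ∣ (P : ℤ) ^ l + ((P ^ K : ℕ) : ℤ) * s - ev P K t k)).card :=
                  Finset.card_biUnion_le
              _ ≤ ∑ k ∈ Finset.range l, m := by
                  apply Finset.sum_le_sum
                  intro k hk
                  have hk' := Finset.mem_range.1 hk
                  apply card_prime_dvd_le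
                  · have h1 := ev_sub_ne_zero P K hP t' k l hk' (by omega)
                    rw [hdiff k hk'] at h1
                    exact fun h => h1 (by rw [h]; ring)
                  · have h1 := habs k l hk' (by omega)
                    rw [hdiff k hk', Int.natAbs_neg] at h1
                    exact h1.trans hm
              _ = l * m := by simp
        _ ≤ (l + 1) * (l + 1) * m := by nlinarith


/-- Difference factorization. -/
theorem ev_sub_eq (P K : ℕ) (t : ℕ → ℕ) (i j : ℕ) (hij : i < j) (hj : j < K) :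
    (ev P K t i : ℤ) - ev P K t j =
      (P : ℤ) ^ i * (1 - P ^ (j - i) + P ^ (K - i) * ((t i : ℤ) - t j)) := by
  simp only [ev]
  push_cast
  have h2 : (P : ℤ) ^ j = P ^ i * P ^ (j - i) := by rw [← pow_add]; congr 1; omega
  have h3 : (P : ℤ) ^ K = P ^ i * P ^ (K - i) := by rw [← pow_add]; congr 1; omega
  rw [h2, h3]; ring

/-- the cofactor `R i j`. -/
def Rv (P K : ℕ) (t : ℕ → ℕ) (i j : ℕ) : ℕ :=
  ((1 : ℤ) - P ^ (j - i) + P ^ (K - i) * ((t i : ℤ) - t j)).natAbs

theorem natAbs_ev_sub (P K : ℕ) (t : ℕ → ℕ) (i j : ℕ) (hij : i < j) (hj : j < K) :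
    ((ev P K t i : ℤ) - ev P K t j).natAbs = P ^ i * Rv P K t i j := by
  rw [ev_sub_eq P K t i j hij hj, Int.natAbs_mul]
  simp [Rv]

theorem Rv_coprime (P K : ℕ) (t : ℕ → ℕ) (i j : ℕ) (hij : i < j) (hj : j < K) :
    Nat.Coprime (Rv P K t i j) P := by
  have h1 : IsCoprime ((1 : ℤ) - P ^ (j - i) + P ^ (K - i) * ((t i : ℤ) - t j)) (P : ℤ) := by
    obtain ⟨a, ha⟩ : (P : ℤ) ∣ (P : ℤ) ^ (j - i) - P ^ (K - i) * ((t i : ℤ) - t j) := by
      apply dvd_sub
      · exact dvd_pow_self _ (by omega)
      · exact Dvd.dvd.mul_right (dvd_pow_self _ (by omega)) _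
    refine ⟨1, a, ?_⟩
    have : (1 : ℤ) * (1 - P ^ (j - i) + P ^ (K - i) * ((t i : ℤ) - t j)) =
      1 - ((P : ℤ) ^ (j - i) - P ^ (K - i) * ((t i : ℤ) - t j)) := by ring
    rw [this, ha]; ring
  have h2 := Int.isCoprime_iff_gcd_eq_one.1 h1
  unfold Rv
  unfold Nat.Coprime
  rw [Int.gcd] at h2
  simpa using h2

/-- The full package: linked integers. -/
theorem exists_linked (K z P T B m : ℕ) (c : ℝ) (hc : 0 < c) (hz : 1 ≤ z) (hP : 2 ≤ P)
    (hPz : ∀ p : ℕ, p.Prime → z < p → Nat.Coprime p P)
    (hPz' : ∀ p : ℕ, p.Prime → p ≤ z → p ∣ P)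
    (hB : P ^ K * T ≤ B) (hm : B ≤ 2 ^ m)
    (hnum : (K : ℝ) * (T * (K / c) + K ^ 2 * m) +
      c * K * (T / z + (1 + Real.log B)) < T) :
    ∃ (e : ℕ → ℕ) (N0 L : ℕ), 0 < L ∧ L ≤ P ^ K * B ^ (K * K) ∧ (∀ i < K, e i ≤ B) ∧
      (∀ i j, i < j → j < K → e i ≠ e j) ∧
      (∀ i j, i < K → j < K → i ≠ j → ((e i : ℤ) - e j) ∣ (L : ℤ)) ∧
      (∀ i j, i < K → j < K → i ≠ j → ((e i : ℤ) - e j) ∣ ((N0 : ℤ) + e i)) := by
  classical
  obtain ⟨t, htT, ht1, -, -⟩ := exists_seq K z P T B m c hc hz hP hPz hB hm hnum K le_rfl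
  set S : Finset (ℕ × ℕ) := (Finset.range K ×ˢ Finset.range K).filter (fun x => x.1 < x.2) with hS
  have hSmem : ∀ x, x ∈ S ↔ x.1 < x.2 ∧ x.2 < K := by
    intro x
    rw [hS, Finset.mem_filter, Finset.mem_product, Finset.mem_range, Finset.mem_range]
    omega
  have hpos : ∀ i j, i < j → j < K → Rv P K t i j ≠ 0 := by
    intro i j hij hj h
    have h1 := ev_sub_ne_zero P K hP t i j hij hj
    have h2 := natAbs_ev_sub P K t i j hij hj
    rw [h, mul_zero, Int.natAbs_eq_zero] at h2
    exact h1 h2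
  have hcop : (S : Set (ℕ × ℕ)).Pairwise
      (Function.onFun Nat.Coprime (fun x : ℕ × ℕ => Rv P K t x.1 x.2)) := by
    intro x hx y hy hxy
    rw [Finset.mem_coe, hSmem] at hx hy
    simp only [Function.onFun]
    by_contra hcon
    obtain ⟨p, hp, hpx, hpy⟩ := Nat.Prime.not_coprime_iff_dvd.1 hcon
    have hzp : z < p := by
      by_contra h
      push Not at h
      have h1 := hPz' p hp h
      have h2 := Rv_coprime P K t x.1 x.2 hx.1 hx.2
      have h3 := Nat.dvd_gcd hpx h1
      rw [h2] at h3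
      exact hp.one_lt.ne' (Nat.dvd_one.1 h3)
    have h1 : (p : ℤ) ∣ (ev P K t x.1 : ℤ) - ev P K t x.2 := by
      rw [Int.natCast_dvd, natAbs_ev_sub P K t x.1 x.2 hx.1 hx.2]
      exact Dvd.dvd.mul_left hpx _
    have h2 : (p : ℤ) ∣ (ev P K t y.1 : ℤ) - ev P K t y.2 := by
      rw [Int.natCast_dvd, natAbs_ev_sub P K t y.1 y.2 hy.1 hy.2]
      exact Dvd.dvd.mul_left hpy _
    have h3 := ht1 p hp hzp x.1 x.2 y.1 y.2 hx.1 hx.2 hy.1 hy.2 h1 h2
    exact hxy (Prod.ext h3.1 h3.2)
  obtain ⟨N1, hN1⟩ := Nat.chineseRemainderOfFinset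
    (fun x : ℕ × ℕ => (Rv P K t x.1 x.2 - 1) * ev P K t x.1)
    (fun x : ℕ × ℕ => Rv P K t x.1 x.2) S
    (fun x hx => by
      rw [hSmem] at hx
      exact hpos x.1 x.2 hx.1 hx.2) hcop
  set R := ∏ x ∈ S, Rv P K t x.1 x.2 with hR
  have hRcop : Nat.Coprime (P ^ K) R := by
    apply Nat.Coprime.pow_left
    rw [hR]
    apply Nat.Coprime.prod_right
    intro x hx
    rw [hSmem] at hx
    exact (Rv_coprime P K t x.1 x.2 hx.1 hx.2).symm
  obtain ⟨N0, hN0a, hN0b⟩ := Nat.chineseRemainder hRcop 0 N1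
  have hPpos : 0 < P := by omega
  have hRpos : 0 < R := by
    rw [hR]
    apply Finset.prod_pos
    intro x hx
    rw [hSmem] at hx
    exact Nat.pos_of_ne_zero (hpos x.1 x.2 hx.1 hx.2)
  have hevB : ∀ k, k < K → ev P K t k ≤ B := by
    intro k hk
    have h1 : t k < T := htT k hk
    calc ev P K t k = P ^ k + P ^ K * t k := rfl
      _ ≤ P ^ K + P ^ K * t k := by
          apply Nat.add_le_add_right
          exact Nat.pow_le_pow_right (by omega) (by omega)
      _ = P ^ K * (t k + 1) := by ring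
      _ ≤ P ^ K * T := Nat.mul_le_mul_left _ h1
      _ ≤ B := hB
  -- main divisibility for i < j
  have hmain : ∀ i j, i < j → j < K → ((ev P K t i : ℤ) - ev P K t j).natAbs ∣ P ^ K * R ∧
      ((ev P K t i : ℤ) - ev P K t j) ∣ ((N0 : ℤ) + ev P K t i) := by
    intro i j hij hj
    have hx : (i, j) ∈ S := by rw [hSmem]; exact ⟨hij, hj⟩
    have hRdvd : Rv P K t i j ∣ R := Finset.dvd_prod_of_mem (fun x : ℕ × ℕ => Rv P K t x.1 x.2) hx
    have hPi : P ^ i ∣ P ^ K := pow_dvd_pow _ (by omega)
    rw [natAbs_ev_sub P K t i j hij hj]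
    refine ⟨Nat.mul_dvd_mul hPi hRdvd, ?_⟩
    have h1 : P ^ i * Rv P K t i j ∣ N0 + ev P K t i := by
      apply Nat.Coprime.mul_dvd_of_dvd_of_dvd
      · exact (Nat.Coprime.pow_right i (Rv_coprime P K t i j hij hj)).symm
      · apply dvd_add
        · exact hPi.trans ((Nat.modEq_zero_iff_dvd).1 hN0a)
        · unfold ev
          exact dvd_add dvd_rfl (Dvd.dvd.mul_right hPi _)
      · have h2 : N0 ≡ (Rv P K t i j - 1) * ev P K t i [MOD Rv P K t i j] :=
          (hN0b.of_dvd hRdvd).trans (hN1 (i, j) hx)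
        have h3 : N0 + ev P K t i ≡ (Rv P K t i j - 1) * ev P K t i + ev P K t i
          [MOD Rv P K t i j] := Nat.ModEq.add_right _ h2
        have h4 : (Rv P K t i j - 1) * ev P K t i + ev P K t i = Rv P K t i j * ev P K t i := by
          have h5 : 1 ≤ Rv P K t i j := Nat.one_le_iff_ne_zero.2 (hpos i j hij hj)
          obtain ⟨r, hr⟩ := Nat.exists_eq_add_of_le h5
          rw [hr]
          simp only [Nat.add_sub_cancel_left]
          ring
        rw [h4] at h3
        exact (Nat.modEq_zero_iff_dvd).1 (h3.trans (by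
          rw [Nat.modEq_zero_iff_dvd]; exact Dvd.intro _ rfl))
    rw [← Int.natAbs_dvd_natAbs, natAbs_ev_sub P K t i j hij hj]
    have h2 : ((N0 : ℤ) + ev P K t i).natAbs = N0 + ev P K t i := by
      have : ((N0 : ℤ) + ev P K t i) = ((N0 + ev P K t i : ℕ) : ℤ) := by push_cast; ring
      rw [this, Int.natAbs_natCast]
    rw [h2]
    exact h1
  refine ⟨ev P K t, N0, P ^ K * R, Nat.mul_pos (Nat.pow_pos hPpos) hRpos, ?_, hevB, ?_, ?_, ?_⟩
  · apply Nat.mul_le_mul_left
    calc R ≤ ∏ x ∈ S, B := by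
          rw [hR]
          apply Finset.prod_le_prod'
          intro x hx
          rw [hSmem] at hx
          have h1 := natAbs_ev_sub P K t x.1 x.2 hx.1 hx.2
          have h2 : ((ev P K t x.1 : ℤ) - ev P K t x.2).natAbs ≤ B := by
            have h3 := hevB x.1 (by omega)
            have h4 := hevB x.2 (by omega)
            omega
          rw [h1] at h2
          calc Rv P K t x.1 x.2 = 1 * Rv P K t x.1 x.2 := (one_mul _).symm
            _ ≤ P ^ x.1 * Rv P K t x.1 x.2 :=
                Nat.mul_le_mul_right _ (Nat.one_le_pow _ _ hPpos)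
            _ ≤ B := h2
      _ = B ^ S.card := by rw [Finset.prod_const]
      _ ≤ B ^ (K * K) := by
          by_cases hK : K = 0
          · subst hK
            have : S = ∅ := by
              apply Finset.eq_empty_of_forall_notMem
              intro x hx
              rw [hSmem] at hx
              omega
            rw [this]; simp
          · apply Nat.pow_le_pow_right
            · have h1 := hevB 0 (by omega)
              have h2 : 1 ≤ ev P K t 0 := by
                unfold ev
                rw [pow_zero]; omega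
              omega
            · calc S.card ≤ (Finset.range K ×ˢ Finset.range K).card := Finset.card_filter_le _ _
                _ = K * K := by simp
  · intro i j hij hj h
    have := ev_sub_ne_zero P K hP t i j hij hj
    apply this
    rw [h]; ring
  · intro i j hi hj hij
    rcases Nat.lt_or_gt_of_ne hij with h | h
    · have := (hmain i j h hj).1
      exact Int.natAbs_dvd.1 (by exact_mod_cast this)
    · have := (hmain j i h hi).1
      rw [← neg_sub, neg_dvd]
      exact Int.natAbs_dvd.1 (by exact_mod_cast this)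
  · intro i j hi hj hij
    rcases Nat.lt_or_gt_of_ne hij with h | h
    · exact (hmain i j h hj).2
    · have h1 := (hmain j i h hi).2
      have h2 : ((N0 : ℤ) + ev P K t i) = ((N0 : ℤ) + ev P K t j) -
        ((ev P K t j : ℤ) - ev P K t i) := by ring
      rw [← neg_sub, neg_dvd, h2]
      exact dvd_sub h1 dvd_rfl

end Pool.Agent.Lib.MP_bdd9a3_nt
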