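import Mathlib
import Pool.Agent.Lib.MP_bdd9a3_nt.Mertens

namespace Pool.Agent.Lib.MP_bdd9a3_nt

open Finset Real

/-- The `y`-smooth integers `m ≤ x` with `m ≡ a [MOD q]`. -/
noncomputable def smoothAP (y q a : ℕ) (x : ℝ) : Finset ℕ :=
  open Classical in
  (Finset.Icc 1 ⌊x⌋₊).filter (fun m => m ≡ a [MOD q] ∧ ∀ p : ℕ, p.Prime → p ∣ m → p ≤ y)

theorem mem_smoothAP {y q a : ℕ} {x : ℝ} {m : ℕ} :
    m ∈ smoothAP y q a x ↔ (1 ≤ m ∧ m ≤ ⌊x⌋₊) ∧ m ≡ a [MOD q] ∧
      ∀ p : ℕ, p.Prime → p ∣ m → p ≤ y := by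
  classical
  simp [smoothAP]

/-- Count of integers in a residue class. -/
theorem card_AP_ge (q a : ℕ) (hq : 1 ≤ q) (n : ℕ) :
    n / q ≤ ((Finset.Icc 1 n).filter (fun m => m ≡ a [MOD q])).card := by
  classical
  -- a representative r in [1,q] with r ≡ a
  obtain ⟨r, hr1, hrq, hra⟩ : ∃ r, 1 ≤ r ∧ r ≤ q ∧ r ≡ a [MOD q] := by
    by_cases h : a % q = 0
    · refine ⟨q, hq, le_refl _, ?_⟩
      unfold Nat.ModEq
      rw [h, Nat.mod_self]
    · refine ⟨a % q, Nat.one_le_iff_ne_zero.2 h, (Nat.mod_lt _ (by omega)).le, Nat.mod_modEq _ _⟩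
  have : (Finset.range (n / q)).card ≤
      ((Finset.Icc 1 n).filter (fun m => m ≡ a [MOD q])).card := by
    apply Finset.card_le_card_of_injOn (fun j => j * q + r)
    · intro j hj
      simp only [Finset.coe_range, Set.mem_Iio] at hj
      simp only [Finset.coe_filter, Finset.mem_Icc, Set.mem_ofPred_eq]
      refine ⟨⟨by omega, ?_⟩, ?_⟩
      · have h1 : (j + 1) * q ≤ n := by
          calc (j + 1) * q ≤ (n / q) * q := Nat.mul_le_mul_right _ hj
            _ ≤ n := Nat.div_mul_le_self _ _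
        calc j * q + r ≤ j * q + q := by omega
          _ = (j + 1) * q := by ring
          _ ≤ n := h1
      · calc j * q + r ≡ 0 + a [MOD q] :=
              Nat.ModEq.add ((Nat.modEq_zero_iff_dvd).2 (Dvd.intro_left _ rfl)) hra
          _ = a := by ring
    · intro i _ j _ hij
      simp only at hij
      have : i * q = j * q := by omega
      exact Nat.eq_of_mul_eq_mul_right (by omega) this
  simpa using this

theorem smoothAP_base (y q a : ℕ) (hq : 1 ≤ q) (x : ℝ) (hx : x ≤ y) (hx2 : 2 * (q : ℝ) ≤ x) :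
    x / (2 * q) ≤ ((smoothAP y q a x).card : ℝ) := by
  classical
  have hq0 : (0 : ℝ) < q := by exact_mod_cast hq
  have h1 : (Finset.Icc 1 ⌊x⌋₊).filter (fun m => m ≡ a [MOD q]) ⊆ smoothAP y q a x := by
    intro m hm
    rw [mem_smoothAP]
    simp only [Finset.mem_filter, Finset.mem_Icc] at hm
    refine ⟨hm.1, hm.2, ?_⟩
    intro p hp hpm
    have h2 : p ≤ m := Nat.le_of_dvd (by omega) hpm
    have h3 : (⌊x⌋₊ : ℝ) ≤ y := le_trans (Nat.floor_le (by linarith)) hx
    have h4 : ⌊x⌋₊ ≤ y := by exact_mod_cast h3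
    omega
  have h2 := card_AP_ge q a hq ⌊x⌋₊
  have h3 := Finset.card_le_card h1
  have h4 : ((⌊x⌋₊ / q : ℕ) : ℝ) ≤ ((smoothAP y q a x).card : ℝ) := by
    exact_mod_cast h2.trans h3
  refine le_trans ?_ h4
  have h5 : (⌊x⌋₊ / q : ℕ) = ⌊x / q⌋₊ := by
    rw [Nat.floor_div_natCast]
  rw [h5]
  have h6 : x / q < ⌊x / q⌋₊ + 1 := Nat.lt_floor_add_one _
  have h7 : 2 ≤ x / q := by
    rw [le_div_iff₀ hq0]; linarith
  have h8 : x / (2 * q) = x / q / 2 := by
    field_simp
  rw [h8]
  have h9 : (2 : ℕ) ≤ ⌊x / q⌋₊ := Nat.le_floor (by exact_mod_cast h7)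
  have h10 : (2 : ℝ) ≤ (⌊x / q⌋₊ : ℝ) := by exact_mod_cast h9
  linarith

/-- The key recursive inequality. -/
theorem smoothAP_rec (v q a : ℕ) (hq : 1 ≤ q) (hqv : q ≤ v) (ha : Nat.Coprime a q) (x : ℝ)
    (hx : 1 ≤ x) (c : ℝ) (hv : 1 ≤ v)
    (hc : ∀ p ∈ (Finset.Ioc v (v ^ 3)).filter Nat.Prime, ∀ b : ℕ, Nat.Coprime b q →
      c * (x / p) ≤ ((smoothAP (v ^ 4) q b (x / p)).card : ℝ)) :
    c * x * ∑ p ∈ (Finset.Ioc v (v ^ 3)).filter Nat.Prime, Real.log p / (p : ℝ) ≤
      ((smoothAP (v ^ 4) q a x).card : ℝ) * Real.log x := by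
  classical
  set S := smoothAP (v ^ 4) q a x with hS
  set Q := (Finset.Ioc v (v ^ 3)).filter Nat.Prime with hQ
  have h1 : ∀ m ∈ S, ∑ p ∈ Q, (if p ∣ m then Real.log p else 0) ≤ Real.log x := by
    intro m hm
    rw [hS, mem_smoothAP] at hm
    rw [← Finset.sum_filter]
    have h2 : ∏ p ∈ Q.filter (fun p => p ∣ m), p ∣ m := by
      apply Finset.prod_primes_dvd
      · intro p hp
        simp only [hQ, Finset.mem_filter] at hp
        exact hp.1.2.prime
      · intro p hp
        exact (Finset.mem_filter.1 hp).2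
    have h3 : ∏ p ∈ Q.filter (fun p => p ∣ m), p ≤ m := Nat.le_of_dvd (by omega) h2
    have h4 : (m : ℝ) ≤ x := by
      have := hm.1.2
      exact (Nat.le_floor_iff (by linarith)).1 this
    have h5 : ∑ p ∈ Q.filter (fun p => p ∣ m), Real.log p =
        Real.log (∏ p ∈ Q.filter (fun p => p ∣ m), (p : ℝ)) := by
      rw [Real.log_prod]
      intro p hp
      simp only [hQ, Finset.mem_filter] at hp
      have := hp.1.2.ne_zero
      exact_mod_cast this
    rw [h5]
    apply Real.log_le_log
    · apply Finset.prod_pos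
      intro p hp
      simp only [hQ, Finset.mem_filter] at hp
      have := hp.1.2.pos
      exact_mod_cast this
    · have : ((∏ p ∈ Q.filter (fun p => p ∣ m), p : ℕ) : ℝ) ≤ m := by exact_mod_cast h3
      push_cast at this
      linarith
  have h2 : ∑ m ∈ S, ∑ p ∈ Q, (if p ∣ m then Real.log p else 0) ≤ (S.card : ℝ) * Real.log x := by
    calc _ ≤ ∑ m ∈ S, Real.log x := Finset.sum_le_sum h1
      _ = _ := by rw [Finset.sum_const, nsmul_eq_mul]
  rw [Finset.sum_comm] at h2
  refine le_trans ?_ h2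
  rw [Finset.mul_sum]
  apply Finset.sum_le_sum
  intro p hp
  have hp' : p.Prime := (Finset.mem_filter.1 hp).2
  have hpv : v < p ∧ p ≤ v ^ 3 := Finset.mem_Ioc.1 (Finset.mem_filter.1 hp).1
  have hlog : 0 ≤ Real.log p := Real.log_nonneg (by exact_mod_cast hp'.one_lt.le)
  have hp0 : (0 : ℝ) < p := by exact_mod_cast hp'.pos
  -- p coprime to q
  have hpq : Nat.Coprime p q := by
    rw [Nat.Prime.coprime_iff_not_dvd hp']
    intro hdvd
    have := Nat.le_of_dvd (by omega) hdvd
    omega
  -- inverse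
  obtain ⟨b, hb⟩ : ∃ b : ℕ, p * b ≡ a [MOD q] := by
    obtain ⟨b, _, hb⟩ := Nat.exists_mul_mod_eq_of_coprime a hpq (by omega)
    exact ⟨b, hb⟩
  have hbq : Nat.Coprime b q := by
    have h3 : Nat.gcd (p * b) q = Nat.gcd a q := Nat.ModEq.gcd_eq hb
    have h4 : Nat.Coprime (p * b) q := by
      unfold Nat.Coprime; rw [h3]; exact ha
    exact Nat.Coprime.coprime_mul_left h4
  have h3 := hc p hp b hbq
  have h4 : ((smoothAP (v ^ 4) q b (x / p)).card : ℝ) ≤ ((S.filter (fun m => p ∣ m)).card : ℝ) := by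
    have : (smoothAP (v ^ 4) q b (x / p)).card ≤ (S.filter (fun m => p ∣ m)).card := by
      apply Finset.card_le_card_of_injOn (fun m => p * m)
      · intro m hm
        rw [Finset.mem_coe, mem_smoothAP] at hm
        simp only [Finset.coe_filter, Set.mem_ofPred_eq]
        refine ⟨?_, Dvd.intro _ rfl⟩
        rw [hS, mem_smoothAP]
        refine ⟨⟨?_, ?_⟩, ?_, ?_⟩
        · have : 1 ≤ p * m := Nat.one_le_iff_ne_zero.2 (Nat.mul_ne_zero hp'.ne_zero (by omega))
          exact this
        · rw [Nat.le_floor_iff (by linarith)]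
          have h5 := (Nat.le_floor_iff (by positivity)).1 hm.1.2
          rw [le_div_iff₀ hp0] at h5
          push_cast
          linarith
        · exact (Nat.ModEq.mul_left p hm.2.1).trans hb
        · intro r hr hrd
          rcases (Nat.Prime.dvd_mul hr).1 hrd with h | h
          · have h6 : r = p := (Nat.prime_dvd_prime_iff_eq hr hp').1 h
            rw [h6]
            calc p ≤ v ^ 3 := hpv.2
              _ ≤ v ^ 4 := Nat.pow_le_pow_right hv (by norm_num)
          · exact hm.2.2 r hr h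
      · intro m _ m' _ hmm
        simp only at hmm
        exact Nat.eq_of_mul_eq_mul_left hp'.pos hmm
    exact_mod_cast this
  calc c * x * (Real.log p / p) = c * (x / p) * Real.log p := by ring
    _ ≤ ((S.filter (fun m => p ∣ m)).card : ℝ) * Real.log p :=
        mul_le_mul_of_nonneg_right (h3.trans h4) hlog
    _ = ∑ m ∈ S, (if p ∣ m then Real.log p else 0) := by
        rw [← Finset.sum_filter, Finset.sum_const, nsmul_eq_mul]

/-- Lower bound for smooth numbers in arithmetic progressions. -/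
theorem smoothAP_lower (v q : ℕ) (hv : 3000 ≤ v) (hq : 1 ≤ q) (hqv : 2 * q ≤ v) (k : ℕ)
    (hk : 4 ≤ k) : ∀ x : ℝ, (v : ℝ) ≤ x → x ≤ (v : ℝ) ^ k → ∀ a : ℕ, Nat.Coprime a q →
      x / q / (4 ^ k * (k.factorial : ℝ)) ≤ ((smoothAP (v ^ 4) q a x).card : ℝ) := by
  have hq0 : (0 : ℝ) < q := by exact_mod_cast hq
  have hv0 : (3000 : ℝ) ≤ v := by exact_mod_cast hv
  induction k, hk using Nat.le_induction with
  | base =>
    intro x hx hx4 a ha
    have h1 := smoothAP_base (v ^ 4) q a hq x (by push_cast; exact hx4)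
      (by have : (2 * q : ℝ) ≤ v := by exact_mod_cast hqv
          linarith)
    refine le_trans ?_ h1
    have h2 : ((4 : ℕ).factorial : ℝ) = 24 := by norm_num [Nat.factorial]
    rw [h2]
    have hx0 : 0 < x := by linarith
    rw [div_div]
    apply div_le_div_of_nonneg_left hx0.le (by positivity)
    nlinarith
  | succ k hk ih =>
    intro x hx hxk a ha
    have hx0 : 0 < x := by linarith
    by_cases hxk' : x ≤ (v : ℝ) ^ k
    · refine le_trans ?_ (ih x hx hxk' a ha)
      apply div_le_div_of_nonneg_left (by positivity) (by positivity)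
      have h1 : (k.factorial : ℝ) ≤ ((k + 1).factorial : ℝ) := by
        exact_mod_cast Nat.factorial_le (by omega)
      have h2 : (4 : ℝ) ^ k ≤ 4 ^ (k + 1) := pow_le_pow_right₀ (by norm_num) (by omega)
      exact mul_le_mul h2 h1 (by positivity) (by positivity)
    · push Not at hxk'
      have h1 := smoothAP_rec v q a hq (by omega) ha x (by linarith)
        (1 / q / (4 ^ k * (k.factorial : ℝ))) (by omega) (by
          intro p hp b hb
          have hp' : p.Prime := (Finset.mem_filter.1 hp).2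
          have hpv : v < p ∧ p ≤ v ^ 3 := Finset.mem_Ioc.1 (Finset.mem_filter.1 hp).1
          have hp0 : (0 : ℝ) < p := by exact_mod_cast hp'.pos
          have hpv1 : (v : ℝ) < p := by exact_mod_cast hpv.1
          have hpv3 : (p : ℝ) ≤ (v : ℝ) ^ 3 := by exact_mod_cast hpv.2
          have h2 := ih (x / p) (by
            rw [le_div_iff₀ hp0]
            calc (v : ℝ) * p ≤ v * v ^ 3 := by
                  apply mul_le_mul_of_nonneg_left hpv3 (by linarith)
              _ = (v : ℝ) ^ 4 := by ring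
              _ ≤ (v : ℝ) ^ k := pow_le_pow_right₀ (by linarith) hk
              _ ≤ x := hxk'.le) (by
            rw [div_le_iff₀ hp0]
            calc x ≤ (v : ℝ) ^ (k + 1) := hxk
              _ = (v : ℝ) ^ k * v := by ring
              _ ≤ (v : ℝ) ^ k * p := by
                  apply mul_le_mul_of_nonneg_left hpv1.le (by positivity)) b hb
          refine le_trans (le_of_eq ?_) h2
          ring)
      have h2 := mertens_range v hv
      have hlogv : 0 < Real.log v := Real.log_pos (by linarith)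
      have hlogx : 0 < Real.log x := Real.log_pos (by linarith)
      have h3 : Real.log x ≤ (k + 1) * Real.log v := by
        calc Real.log x ≤ Real.log ((v : ℝ) ^ (k + 1)) := Real.log_le_log hx0 hxk
          _ = (k + 1) * Real.log v := by rw [Real.log_pow]; push_cast; ring
      set c := 1 / (q : ℝ) / (4 ^ k * (k.factorial : ℝ)) with hc
      have hc0 : 0 < c := by positivity
      set N : ℝ := ((smoothAP (v ^ 4) q a x).card : ℝ) with hN
      have hN0 : 0 ≤ N := by positivity
      have h4 : c * x * (Real.log v / 4) ≤ N * ((k + 1) * Real.log v) := by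
        calc c * x * (Real.log v / 4) ≤ c * x * _ :=
              mul_le_mul_of_nonneg_left h2 (by positivity)
          _ ≤ _ := h1
          _ ≤ _ := mul_le_mul_of_nonneg_left h3 hN0
      have h5 : c * x / 4 ≤ N * (k + 1) := by
        have h6 : (c * x / 4) * Real.log v ≤ (N * (k + 1)) * Real.log v := by
          calc (c * x / 4) * Real.log v = c * x * (Real.log v / 4) := by ring
            _ ≤ _ := h4
            _ = _ := by ring
        exact le_of_mul_le_mul_right h6 hlogv
      have h6 : x / q / (4 ^ (k + 1) * ((k + 1).factorial : ℝ)) = (c * x / 4) / (k + 1) := by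
        rw [hc, Nat.factorial_succ]
        push_cast
        field_simp
        ring
      rw [h6, div_le_iff₀ (by positivity)]
      exact h5

end Pool.Agent.Lib.MP_bdd9a3_nt
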