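import Mathlib
import Pool.Agent.Lib.MP_bdd9a3_nt.SmoothAP
import Pool.Agent.Lib.MP_bdd9a3_nt.Linked

namespace Pool.Agent.Lib.MP_bdd9a3_nt

open Finset

/-- Upper bound for the number of integers in a residue class. -/
theorem card_AP_le (q a : ℕ) (hq : 1 ≤ q) (n : ℕ) :
    (((Finset.range (n + 1)).filter (fun m => m ≡ a [MOD q])).card : ℝ) ≤ n / q + 2 := by
  have h2 : ((Finset.range (n + 1)).filter (fun t : ℕ => t ≡ a [MOD q])).card ≤
      (n + 1) / q + 1 := by
    rw [← Nat.count_eq_card_filter_range]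
    rw [Nat.count_modEq_card (n + 1) (by omega) a]
    split_ifs <;> omega
  have h3 : (((Finset.range (n + 1)).filter (fun t : ℕ => t ≡ a [MOD q])).card : ℝ) ≤
      (((n + 1) / q : ℕ) : ℝ) + 1 := by exact_mod_cast h2
  have h4 : (((n + 1) / q : ℕ) : ℝ) ≤ ((n + 1 : ℕ) : ℝ) / q := Nat.cast_div_le
  have hq0 : (1 : ℝ) ≤ q := by exact_mod_cast hq
  have h5 : ((n + 1 : ℕ) : ℝ) / q ≤ n / q + 1 := by
    push_cast
    rw [add_div]
    have : (1 : ℝ) / q ≤ 1 := by rw [div_le_one (by linarith)]; exact hq0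
    linarith
  linarith

/-- Pigeonhole: two linked smooth numbers. -/
theorem pigeon (K v k L N0 : ℕ) (e : ℕ → ℕ) (hv : 3000 ≤ v) (hk : 4 ≤ k) (hL : 0 < L)
    (hLv : 2 * L ≤ v) (hKv : 4 * K ≤ v) (hK : 3 * (4 ^ k * k.factorial) ≤ K)
    (hev : ∀ i < K, e i ≤ v)
    (hinj : ∀ i j, i < j → j < K → e i ≠ e j)
    (hdL : ∀ i j, i < K → j < K → i ≠ j → ((e i : ℤ) - e j) ∣ (L : ℤ))
    (hdN : ∀ i j, i < K → j < K → i ≠ j → ((e i : ℤ) - e j) ∣ ((N0 : ℤ) + e i)) :
    ∃ n : ℕ, v ^ (k - 2) ≤ n ∧ n ≤ v ^ k ∧ ∀ p : ℕ, p.Prime → p ∣ n * (n + 1) → p ≤ v ^ 4 := by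
  classical
  have hv1 : 1 ≤ v := by omega
  have hvR : (3000 : ℝ) ≤ v := by exact_mod_cast hv
  have hL1 : (1 : ℝ) ≤ L := by exact_mod_cast hL
  have hLvR : 2 * (L : ℝ) ≤ v := by exact_mod_cast hLv
  have hKvR : 4 * (K : ℝ) ≤ v := by exact_mod_cast hKv
  set F : ℝ := 4 ^ k * (k.factorial : ℝ) with hF
  have hFpos : 0 < F := by positivity
  have hKF : 3 * F ≤ K := by rw [hF]; exact_mod_cast hK
  have hKpos : 0 < (K : ℝ) := by linarith
  -- Sets B i
  let Bset : ℕ → Finset ℕ := fun i =>
    ((Finset.range (v ^ k + 1)).filter (fun N => N ≡ N0 [MOD L])).filter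
      (fun N => v ^ (k - 1) ≤ N ∧ N + e i ≤ v ^ k ∧ ∀ p : ℕ, p.Prime → p ∣ N + e i → p ≤ v ^ 4)
  have hBcard : ∀ i < K, (v : ℝ) ^ k / L / F - (2 * (v : ℝ) ^ (k - 1) / L + 2) ≤
      ((Bset i).card : ℝ) := by
    intro i hi
    set g := Nat.gcd (N0 + e i) L with hg
    have hgpos : 0 < g := Nat.gcd_pos_of_pos_right _ hL
    obtain ⟨q, hq⟩ : g ∣ L := Nat.gcd_dvd_right _ _
    obtain ⟨b, hb⟩ : g ∣ N0 + e i := Nat.gcd_dvd_left _ _
    have hqpos : 0 < q := by
      rcases Nat.eq_zero_or_pos q with h | h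
      · rw [h, mul_zero] at hq; omega
      · exact h
    have hbq : Nat.Coprime b q := by
      have h1 := Nat.coprime_div_gcd_div_gcd (m := N0 + e i) (n := L) hgpos
      rw [← hg] at h1
      have h2 : L / g = q := Nat.div_eq_of_eq_mul_right hgpos hq
      have h3 : (N0 + e i) / g = b := Nat.div_eq_of_eq_mul_right hgpos hb
      rwa [h2, h3] at h1
    have hgL : g ≤ L := Nat.le_of_dvd hL (Nat.gcd_dvd_right _ _)
    have hqL : q ≤ L := Nat.le_of_dvd hL ⟨g, by rw [hq]; ring⟩
    have hgR : (0 : ℝ) < g := by exact_mod_cast hgpos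
    have hqR : (0 : ℝ) < q := by exact_mod_cast hqpos
    have hgLR : (g : ℝ) ≤ L := by exact_mod_cast hgL
    have hLgq : (L : ℝ) = g * q := by exact_mod_cast hq
    have hg1 : (1 : ℝ) ≤ g := by exact_mod_cast hgpos
    have hA := smoothAP_lower v q hv hqpos (by omega) k hk ((v : ℝ) ^ k / g) (by
        rw [le_div_iff₀ hgR]
        calc (v : ℝ) * g ≤ v * v := by
              apply mul_le_mul_of_nonneg_left _ (by linarith); linarith
          _ = (v : ℝ) ^ 2 := by ring
          _ ≤ (v : ℝ) ^ k := pow_le_pow_right₀ (by linarith) (by omega)) (by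
        rw [div_le_iff₀ hgR]
        have : (0 : ℝ) ≤ (v : ℝ) ^ k := by positivity
        nlinarith) b hbq
    rw [← hF] at hA
    have hA' : (v : ℝ) ^ k / g / q / F = (v : ℝ) ^ k / L / F := by
      rw [hLgq]; field_simp
    rw [hA'] at hA
    -- map A to B ∪ small
    set A := smoothAP (v ^ 4) q b ((v : ℝ) ^ k / g) with hAdef
    set small := (Finset.range (2 * v ^ (k - 1) + 1)).filter
      (fun s => s ≡ N0 + e i [MOD L]) with hsmall
    have hcard : A.card ≤ (Bset i).card + small.card := by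
      have hsub : A.image (fun m => g * m) ⊆ (Bset i).image (fun N => N + e i) ∪ small := by
        intro s hs
        rw [Finset.mem_image] at hs
        obtain ⟨m, hm, rfl⟩ := hs
        rw [hAdef, mem_smoothAP] at hm
        have hs1 : g * m ≡ N0 + e i [MOD L] := by
          rw [hb, hq]
          exact Nat.ModEq.mul_left' g hm.2.1
        have hs2 : g * m ≤ v ^ k := by
          have h1 := (Nat.le_floor_iff (by positivity)).1 hm.1.2
          rw [le_div_iff₀ hgR] at h1
          have h2 : ((g * m : ℕ) : ℝ) ≤ ((v ^ k : ℕ) : ℝ) := by push_cast; linarith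
          exact_mod_cast h2
        have hs3 : ∀ p : ℕ, p.Prime → p ∣ g * m → p ≤ v ^ 4 := by
          intro p hp hd
          rcases (Nat.Prime.dvd_mul hp).1 hd with h | h
          · have h1 := Nat.le_of_dvd hgpos h
            calc p ≤ g := h1
              _ ≤ v := by omega
              _ ≤ v ^ 4 := Nat.le_self_pow (by norm_num) v
          · exact hm.2.2 p hp h
        rw [Finset.mem_union]
        by_cases hsm : g * m ≤ 2 * v ^ (k - 1)
        · right
          rw [hsmall, Finset.mem_filter, Finset.mem_range]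
          exact ⟨by omega, hs1⟩
        · left
          push Not at hsm
          have hei := hev i hi
          have hvk : v ≤ v ^ (k - 1) := Nat.le_self_pow (by omega) v
          rw [Finset.mem_image]
          refine ⟨g * m - e i, ?_, by omega⟩
          simp only [Bset, Finset.mem_filter, Finset.mem_range]
          refine ⟨⟨by omega, ?_⟩, by omega, by omega, ?_⟩
          · have h1 : g * m - e i + e i ≡ N0 + e i [MOD L] := by
              rw [Nat.sub_add_cancel (by omega)]; exact hs1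
            exact Nat.ModEq.add_right_cancel' _ h1
          · intro p hp hd
            rw [Nat.sub_add_cancel (by omega)] at hd
            exact hs3 p hp hd
      have h1 : (A.image (fun m => g * m)).card = A.card := by
        apply Finset.card_image_of_injective
        intro x y hxy
        exact Nat.eq_of_mul_eq_mul_left hgpos hxy
      calc A.card = _ := h1.symm
        _ ≤ _ := Finset.card_le_card hsub
        _ ≤ _ := Finset.card_union_le _ _
        _ ≤ _ := Nat.add_le_add_right (Finset.card_image_le) _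
    have hsm := card_AP_le L (N0 + e i) hL (2 * v ^ (k - 1))
    have hcard' : (A.card : ℝ) ≤ ((Bset i).card : ℝ) + (small.card : ℝ) := by exact_mod_cast hcard
    push_cast at hsm
    linarith
  -- the box
  set Box := (Finset.range (v ^ k + 1)).filter (fun N => N ≡ N0 [MOD L]) with hBox
  have hBoxcard : (Box.card : ℝ) ≤ (v : ℝ) ^ k / L + 2 := by
    have := card_AP_le L N0 hL (v ^ k)
    push_cast at this
    exact this
  -- pigeonhole
  have hnd : ∃ i < K, ∃ j < K, i ≠ j ∧ ∃ N, N ∈ Bset i ∧ N ∈ Bset j := by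
    by_contra hcon
    push Not at hcon
    have hdisj : ((Finset.range K : Finset ℕ) : Set ℕ).PairwiseDisjoint Bset := by
      intro i hi j hj hij
      rw [Finset.mem_coe, Finset.mem_range] at hi hj
      simp only [Function.onFun]
      rw [Finset.disjoint_left]
      intro N hNi hNj
      exact hcon i hi j hj hij N hNi hNj
    have h1 : ((Finset.range K).biUnion Bset).card = ∑ i ∈ Finset.range K, (Bset i).card :=
      Finset.card_biUnion hdisj
    have h2 : (Finset.range K).biUnion Bset ⊆ Box := by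
      intro N hN
      rw [Finset.mem_biUnion] at hN
      obtain ⟨i, _, hi⟩ := hN
      exact (Finset.mem_filter.1 hi).1
    have h3 := Finset.card_le_card h2
    rw [h1] at h3
    have h4 : ∑ i ∈ Finset.range K, ((Bset i).card : ℝ) ≤ (Box.card : ℝ) := by exact_mod_cast h3
    have h5 : (K : ℝ) * ((v : ℝ) ^ k / L / F - (2 * (v : ℝ) ^ (k - 1) / L + 2)) ≤
        (v : ℝ) ^ k / L + 2 := by
      calc (K : ℝ) * ((v : ℝ) ^ k / L / F - (2 * (v : ℝ) ^ (k - 1) / L + 2)) =
          ∑ i ∈ Finset.range K, ((v : ℝ) ^ k / L / F - (2 * (v : ℝ) ^ (k - 1) / L + 2)) := by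
            rw [Finset.sum_const, Finset.card_range, nsmul_eq_mul]
        _ ≤ ∑ i ∈ Finset.range K, ((Bset i).card : ℝ) :=
            Finset.sum_le_sum (fun i hi => hBcard i (Finset.mem_range.1 hi))
        _ ≤ Box.card := h4
        _ ≤ _ := hBoxcard
    have hLpos : (0 : ℝ) < L := by linarith
    have hw : (v : ℝ) ^ k = v * (v : ℝ) ^ (k - 1) := by
      rw [← pow_succ']; congr 1; omega
    set W : ℝ := (v : ℝ) ^ (k - 1) / L with hW
    have hW1 : (v : ℝ) ^ k / L = v * W := by rw [hW, hw]; ring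
    have hW2 : 2 * (v : ℝ) ^ (k - 1) / L = 2 * W := by rw [hW]; ring
    rw [hW1, hW2] at h5
    have hWbig : v ≤ W := by
      rw [hW, le_div_iff₀ hLpos]
      calc (v : ℝ) * L ≤ v * v := by
            apply mul_le_mul_of_nonneg_left _ (by linarith); linarith
        _ = (v : ℝ) ^ 2 := by ring
        _ ≤ (v : ℝ) ^ (k - 1) := pow_le_pow_right₀ (by linarith) (by omega)
    have h6 : 3 * (v * W) ≤ K * (v * W / F) := by
      have : (K : ℝ) * (v * W / F) = (K / F) * (v * W) := by ring
      rw [this]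
      apply mul_le_mul_of_nonneg_right _ (by nlinarith)
      rw [le_div_iff₀ hFpos]; exact hKF
    have h7 : (K : ℝ) * (2 * W + 2) ≤ v * W := by
      nlinarith
    nlinarith
  obtain ⟨i, hi, j, hj, hij, N, hNi, hNj⟩ := hnd
  -- wlog e i < e j
  have key : ∀ i j, i < K → j < K → i ≠ j → N ∈ Bset i → N ∈ Bset j → e i < e j →
      ∃ n : ℕ, v ^ (k - 2) ≤ n ∧ n ≤ v ^ k ∧ ∀ p : ℕ, p.Prime → p ∣ n * (n + 1) → p ≤ v ^ 4 := by
    intro i j hi hj hij hNi hNj he
    simp only [Bset, Finset.mem_filter, Finset.mem_range] at hNi hNj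
    obtain ⟨⟨_, hmod⟩, hlo, hhi, hsi⟩ := hNi
    obtain ⟨_, _, _, hsj⟩ := hNj
    set D := e j - e i with hD
    have hDpos : 0 < D := by omega
    have hDv : D ≤ v := by have := hev j hj; omega
    have hDdvd : D ∣ N + e i := by
      have h1 := hdL i j hi hj hij
      have h2 := hdN i j hi hj hij
      have h3 : ((e i : ℤ) - e j) = -(D : ℤ) := by
        rw [hD, Nat.cast_sub he.le]; ring
      rw [h3, neg_dvd] at h1 h2
      have h4 : (L : ℤ) ∣ (N0 : ℤ) - N := (Nat.modEq_iff_dvd).1 hmod
      have h5 : (D : ℤ) ∣ (N : ℤ) + e i := by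
        have h6 : (N : ℤ) + e i = ((N0 : ℤ) + e i) - ((N0 : ℤ) - N) := by ring
        rw [h6]
        exact dvd_sub h2 (h1.trans h4)
      exact_mod_cast h5
    obtain ⟨n, hn⟩ := hDdvd
    have hn1 : N + e j = D * (n + 1) := by
      rw [mul_add, ← hn, mul_one]; omega
    refine ⟨n, ?_, ?_, ?_⟩
    · by_contra hcon
      push Not at hcon
      have h1 : D * n < v ^ (k - 1) := by
        calc D * n ≤ v * n := Nat.mul_le_mul_right _ hDv
          _ < v * v ^ (k - 2) := Nat.mul_lt_mul_of_pos_left hcon (by omega)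
          _ = v ^ (k - 1) := by rw [← pow_succ']; congr 1; omega
      omega
    · calc n = 1 * n := (one_mul n).symm
        _ ≤ D * n := Nat.mul_le_mul_right _ hDpos
        _ = N + e i := hn.symm
        _ ≤ v ^ k := hhi
    · intro p hp hd
      rcases (Nat.Prime.dvd_mul hp).1 hd with h | h
      · exact hsi p hp (by rw [hn]; exact Dvd.dvd.mul_left h _)
      · exact hsj p hp (by rw [hn1]; exact Dvd.dvd.mul_left h _)
  have hne : e i ≠ e j := by
    rcases Nat.lt_or_gt_of_ne hij with h | h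
    · exact hinj i j h hj
    · exact (hinj j i h hi).symm
  rcases Nat.lt_or_gt_of_ne hne with h | h
  · exact key i j hi hj hij hNi hNj h
  · exact key j i hj hi hij.symm hNj hNi h

end Pool.Agent.Lib.MP_bdd9a3_nt
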