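import Mathlib
import Pool.Agent.Lib.MP_bdd9a3_nt.Pigeon

namespace Pool.Agent.Lib.MP_bdd9a3_nt

open Finset

/-- Explicit version of the existence of linked integers. -/
theorem exists_linked_explicit (K : ℕ) (hK : 1 ≤ K) :
    ∃ (e : ℕ → ℕ) (N0 L : ℕ), 0 < L ∧ L ≤ 2 ^ (384 * K ^ 6) ∧ (∀ i < K, e i ≤ 2 ^ (384 * K ^ 6)) ∧
      (∀ i j, i < j → j < K → e i ≠ e j) ∧
      (∀ i j, i < K → j < K → i ≠ j → ((e i : ℤ) - e j) ∣ (L : ℤ)) ∧
      (∀ i j, i < K → j < K → i ≠ j → ((e i : ℤ) - e j) ∣ ((N0 : ℤ) + e i)) := by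
  set z := 64 * K ^ 3 with hz
  set P := primorial z with hP
  set T := 4 ^ (z * K) with hT
  have hKR : (1 : ℝ) ≤ K := by exact_mod_cast hK
  have hz64 : 64 ≤ z := by
    have : 1 ≤ K ^ 3 := Nat.one_le_pow _ _ hK
    omega
  have hP2 : 2 ≤ P := by
    rw [hP]
    calc 2 = primorial 2 := by rw [primorial_two]
      _ ≤ primorial z := primorial_mono (by omega)
  have hPK : P ^ K ≤ T := by
    rw [hT, hP, pow_mul]
    exact Nat.pow_le_pow_left (primorial_le_four_pow z) K
  have hTm : T = 2 ^ (128 * K ^ 4) := by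
    rw [hT, hz, show (4 : ℕ) = 2 ^ 2 by norm_num, ← pow_mul]
    congr 1; ring
  have hBm : T * T = 2 ^ (256 * K ^ 4) := by
    rw [hTm, ← pow_add]; congr 1; ring
  have hTbig : (65536 : ℝ) * K ^ 7 ≤ T := by
    have h1 : K ≤ 2 ^ (K ^ 4) := by
      calc K ≤ K ^ 4 := Nat.le_self_pow (by norm_num) K
        _ ≤ 2 ^ (K ^ 4) := Nat.lt_two_pow_self.le
    have h2 : K ^ 7 ≤ 2 ^ (7 * K ^ 4) := by
      calc K ^ 7 ≤ (2 ^ (K ^ 4)) ^ 7 := Nat.pow_le_pow_left h1 7
        _ = 2 ^ (7 * K ^ 4) := by rw [← pow_mul]; congr 1; ring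
    have h3 : 65536 * K ^ 7 ≤ T := by
      rw [hTm]
      calc 65536 * K ^ 7 ≤ 2 ^ 16 * 2 ^ (7 * K ^ 4) := by
            apply Nat.mul_le_mul (by norm_num) h2
        _ = 2 ^ (16 + 7 * K ^ 4) := by rw [← pow_add]
        _ ≤ 2 ^ (128 * K ^ 4) := by
            apply Nat.pow_le_pow_right (by norm_num)
            have : 1 ≤ K ^ 4 := Nat.one_le_pow _ _ hK
            omega
    exact_mod_cast h3
  have hTpos : (0 : ℝ) < T := by
    have : 0 < T := by rw [hTm]; positivity
    exact_mod_cast this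
  have hlogB : Real.log ((T * T : ℕ) : ℝ) ≤ 256 * (K : ℝ) ^ 4 := by
    rw [hBm]
    push_cast
    rw [Real.log_pow]
    push_cast
    have h1 := Real.log_two_lt_d9
    have h2 : (0 : ℝ) ≤ 256 * (K : ℝ) ^ 4 := by positivity
    nlinarith
  obtain ⟨e, N0, L, h1, h2, h3, h4, h5, h6⟩ := exists_linked K z P T (T * T) (256 * K ^ 4)
    (8 * (K : ℝ) ^ 2) (by positivity) (by omega) hP2
    (by
      intro p hp hzp
      rw [Nat.Prime.coprime_iff_not_dvd hp, hP, hp.dvd_primorial_iff]
      omega)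
    (by
      intro p hp hzp
      rw [hP, hp.dvd_primorial_iff]
      exact hzp)
    (Nat.mul_le_mul_right _ hPK) hBm.le
    (by
      have e1 : (K : ℝ) / (8 * K ^ 2) = 1 / (8 * K) := by field_simp
      have e2 : (z : ℝ) = 64 * (K : ℝ) ^ 3 := by rw [hz]; push_cast; ring
      rw [e1, e2]
      push_cast
      push_cast at hlogB
      have e3 : (K : ℝ) * (T * (1 / (8 * K)) + K ^ 2 * (256 * K ^ 4)) = T / 8 + 256 * K ^ 7 := by
        field_simp
      have e4 : 8 * (K : ℝ) ^ 2 * K * (T / (64 * K ^ 3) + (1 + Real.log (T * T))) =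
          T / 8 + 8 * K ^ 3 * (1 + Real.log (T * T)) := by
        field_simp
        ring
      rw [e3, e4]
      have e5 : 8 * (K : ℝ) ^ 3 * (1 + Real.log (T * T)) ≤ 8 * K ^ 3 * (257 * K ^ 4) := by
        apply mul_le_mul_of_nonneg_left _ (by positivity)
        have : (1 : ℝ) ≤ K ^ 4 := one_le_pow₀ hKR
        linarith
      have e6 : 8 * (K : ℝ) ^ 3 * (257 * K ^ 4) = 2056 * K ^ 7 := by ring
      have e7 : (0 : ℝ) < (K : ℝ) ^ 7 := by positivity
      linarith)
  refine ⟨e, N0, L, h1, ?_, ?_, h4, h5, h6⟩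
  · calc L ≤ P ^ K * (T * T) ^ (K * K) := h2
      _ ≤ T * (T * T) ^ (K * K) := Nat.mul_le_mul_right _ hPK
      _ = 2 ^ (128 * K ^ 4 + 256 * K ^ 4 * (K * K)) := by
          rw [hBm, ← pow_mul]
          nth_rewrite 1 [hTm]
          rw [← pow_add]
      _ ≤ 2 ^ (384 * K ^ 6) := by
          apply Nat.pow_le_pow_right (by norm_num)
          have e1 : K ^ 4 ≤ K ^ 6 := Nat.pow_le_pow_right hK (by norm_num)
          have e2 : 256 * K ^ 4 * (K * K) = 256 * K ^ 6 := by ring
          omega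
  · intro i hi
    calc e i ≤ T * T := h3 i hi
      _ = 2 ^ (256 * K ^ 4) := hBm
      _ ≤ 2 ^ (384 * K ^ 6) := by
          apply Nat.pow_le_pow_right (by norm_num)
          have e1 : K ^ 4 ≤ K ^ 6 := Nat.pow_le_pow_right hK (by norm_num)
          omega

/-- Main finite statement: for each `k ≥ 4`, with `K = 3 * 4 ^ k * k!` and `v = 2 ^ (400 K ^ 6)`,
there is `n` between `v ^ (k - 2)` and `v ^ k` with `n (n + 1)` being `v ^ 4`-smooth. -/
theorem finite_main (k : ℕ) (hk : 4 ≤ k) (K v : ℕ) (hK : K = 3 * (4 ^ k * k.factorial))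
    (hv : v = 2 ^ (400 * K ^ 6)) :
    ∃ n : ℕ, v ^ (k - 2) ≤ n ∧ n ≤ v ^ k ∧ ∀ p : ℕ, p.Prime → p ∣ n * (n + 1) → p ≤ v ^ 4 := by
  have hK1 : 1 ≤ K := by
    rw [hK]
    have : 1 ≤ 4 ^ k * k.factorial := Nat.one_le_iff_ne_zero.2
      (Nat.mul_ne_zero (by positivity) k.factorial_ne_zero)
    omega
  have hK6 : K ≤ K ^ 6 := Nat.le_self_pow (by norm_num) K
  obtain ⟨e, N0, L, h1, h2, h3, h4, h5, h6⟩ := exists_linked_explicit K hK1
  refine pigeon K v k L N0 e ?_ hk h1 ?_ ?_ hK.ge ?_ h4 h5 h6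
  · rw [hv]
    calc 3000 ≤ 2 ^ 12 := by norm_num
      _ ≤ 2 ^ (400 * K ^ 6) := Nat.pow_le_pow_right (by norm_num) (by omega)
  · rw [hv]
    calc 2 * L ≤ 2 * 2 ^ (384 * K ^ 6) := Nat.mul_le_mul_left _ h2
      _ = 2 ^ (384 * K ^ 6 + 1) := by rw [pow_succ]; ring
      _ ≤ 2 ^ (400 * K ^ 6) := Nat.pow_le_pow_right (by norm_num) (by omega)
  · rw [hv]
    calc 4 * K ≤ 2 ^ 2 * 2 ^ K := Nat.mul_le_mul (by norm_num) Nat.lt_two_pow_self.le
      _ = 2 ^ (2 + K) := by rw [← pow_add]
      _ ≤ 2 ^ (400 * K ^ 6) := Nat.pow_le_pow_right (by norm_num) (by omega)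
  · intro i hi
    rw [hv]
    exact (h3 i hi).trans (Nat.pow_le_pow_right (by norm_num) (by omega))

/-- The asymptotic statement. -/
theorem asymptotic (N : ℕ) : ∃ n : ℕ, N < n ∧ ∀ p : ℕ, p.Prime → p ∣ n * (n + 1) →
    (p : ℝ) ≤ (n : ℝ) ^ (30 * Real.log (Real.log (Real.log n)) / Real.log (Real.log n)) := by
  set k := 10000 + N with hk
  set K := 3 * (4 ^ k * k.factorial) with hK
  set v := 2 ^ (400 * K ^ 6) with hv
  have hk4 : 4 ≤ k := by omega
  obtain ⟨n, hn1, hn2, hn3⟩ := finite_main k hk4 K v hK hv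
  have hK1 : 1 ≤ K := by
    rw [hK]
    have : 1 ≤ 4 ^ k * k.factorial := Nat.one_le_iff_ne_zero.2
      (Nat.mul_ne_zero (by positivity) k.factorial_ne_zero)
    omega
  have hK6 : 1 ≤ K ^ 6 := Nat.one_le_pow _ _ hK1
  have hv2 : 2 ^ 400 ≤ v := by
    rw [hv]; exact Nat.pow_le_pow_right (by norm_num) (by omega)
  have hv16 : 2 ^ 16 ≤ v := le_trans (Nat.pow_le_pow_right (by norm_num) (by norm_num)) hv2
  have hvpos : (0 : ℝ) < v := by
    have : 0 < v := by omega
    exact_mod_cast this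
  have hlogv0 : 1 ≤ Real.log v := by
    have h1 : (2 : ℝ) ^ 16 ≤ v := by exact_mod_cast hv16
    have h2 : Real.log ((2 : ℝ) ^ 16) ≤ Real.log v := Real.log_le_log (by positivity) h1
    rw [Real.log_pow] at h2
    have h3 := Real.log_two_gt_d9
    push_cast at h2
    linarith
  have hnk : N < n := by
    calc N < 2 ^ N := Nat.lt_two_pow_self
      _ ≤ v ^ N := Nat.pow_le_pow_left (by omega) N
      _ ≤ v ^ (k - 2) := Nat.pow_le_pow_right (by omega) (by omega)
      _ ≤ n := hn1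
  have hkR : (10000 : ℝ) ≤ k := by
    have : 10000 ≤ k := by omega
    exact_mod_cast this
  have hk2 : ((k - 2 : ℕ) : ℝ) = (k : ℝ) - 2 := by
    rw [Nat.cast_sub (by omega)]; norm_num
  have hnpos : (0 : ℝ) < n := by
    have : 0 < n := by omega
    exact_mod_cast this
  -- log bounds
  have hlogn_lo : ((k : ℝ) - 2) * Real.log v ≤ Real.log n := by
    have h1 : ((v ^ (k - 2) : ℕ) : ℝ) ≤ n := by exact_mod_cast hn1
    push_cast at h1
    have h2 : Real.log ((v : ℝ) ^ (k - 2)) ≤ Real.log n := Real.log_le_log (by positivity) h1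
    rwa [Real.log_pow, hk2] at h2
  have hlogn_hi : Real.log n ≤ k * Real.log v := by
    have h1 : (n : ℝ) ≤ ((v ^ k : ℕ) : ℝ) := by exact_mod_cast hn2
    push_cast at h1
    have h2 : Real.log n ≤ Real.log ((v : ℝ) ^ k) := Real.log_le_log hnpos h1
    rwa [Real.log_pow] at h2
  have hlogn_big : (9998 : ℝ) ≤ Real.log n := by nlinarith
  set X := Real.log (Real.log n) with hX
  have hXe : 4 * Real.log 2 ≤ X := by
    have h1 : Real.log ((2 : ℝ) ^ 4) ≤ X := by
      rw [hX]; apply Real.log_le_log (by positivity); norm_num; linarith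
    rw [Real.log_pow] at h1
    push_cast at h1
    exact h1
  have hlog2 := Real.log_two_gt_d9
  have hlog2' := Real.log_two_lt_d9
  have hlogX : 1 ≤ Real.log X := by
    rw [Real.le_log_iff_exp_le (by linarith)]
    have := Real.exp_one_lt_d9
    linarith
  -- log k ≥ 9
  have hlogk : 9 ≤ Real.log k := by
    have h1 : (2 : ℝ) ^ 13 ≤ k := by norm_num; linarith
    have h2 : Real.log ((2 : ℝ) ^ 13) ≤ Real.log k := Real.log_le_log (by positivity) h1
    rw [Real.log_pow] at h2
    push_cast at h2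
    linarith
  -- upper bound for X
  have hlogv : Real.log v = 400 * (K : ℝ) ^ 6 * Real.log 2 := by
    rw [hv]; push_cast; rw [Real.log_pow]; push_cast; ring
  have hKRpos : (0 : ℝ) < K := by
    have : 0 < K := by omega
    exact_mod_cast this
  have hlogK : Real.log K ≤ 2 + 2 * k * Real.log 2 + k * Real.log k := by
    have h1 : (K : ℝ) ≤ 3 * (4 ^ k * (k : ℝ) ^ k) := by
      rw [hK]; push_cast
      have : (k.factorial : ℝ) ≤ (k : ℝ) ^ k := by exact_mod_cast k.factorial_le_pow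
      apply mul_le_mul_of_nonneg_left _ (by norm_num)
      exact mul_le_mul_of_nonneg_left this (by positivity)
    have h2 : Real.log K ≤ Real.log (3 * (4 ^ k * (k : ℝ) ^ k)) := Real.log_le_log hKRpos h1
    rw [Real.log_mul (by norm_num) (by positivity), Real.log_mul (by positivity) (by positivity),
      Real.log_pow, Real.log_pow] at h2
    have h3 : Real.log 3 ≤ 2 := by
      have : Real.log 3 ≤ Real.log 4 := Real.log_le_log (by norm_num) (by norm_num)
      rw [show (4 : ℝ) = 2 ^ 2 by norm_num, Real.log_pow] at this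
      push_cast at this
      linarith
    have h4 : Real.log 4 = 2 * Real.log 2 := by
      rw [show (4 : ℝ) = 2 ^ 2 by norm_num, Real.log_pow]; norm_num
    rw [h4] at h2
    nlinarith
  have hXle : X ≤ 7 * k * Real.log k := by
    have h1 : Real.log n ≤ k * (400 * (K : ℝ) ^ 6) := by
      calc Real.log n ≤ k * Real.log v := hlogn_hi
        _ ≤ k * (400 * (K : ℝ) ^ 6) := by
            apply mul_le_mul_of_nonneg_left _ (by positivity)
            rw [hlogv]
            have : (0 : ℝ) ≤ 400 * (K : ℝ) ^ 6 := by positivity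
            nlinarith
    have h2 : X ≤ Real.log (k * (400 * (K : ℝ) ^ 6)) := by
      rw [hX]; exact Real.log_le_log (by linarith) h1
    rw [Real.log_mul (by positivity) (by positivity), Real.log_mul (by norm_num) (by positivity),
      Real.log_pow] at h2
    have h3 : Real.log 400 ≤ 9 * Real.log 2 := by
      have : Real.log 400 ≤ Real.log ((2 : ℝ) ^ 9) := Real.log_le_log (by norm_num) (by norm_num)
      rw [Real.log_pow] at this
      push_cast at this
      linarith
    push_cast at h2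
    have h4 : X ≤ Real.log k + 9 * Real.log 2 + 6 * (2 + 2 * k * Real.log 2 + k * Real.log k) := by
      linarith
    have h5 : (k : ℝ) * Real.log 2 ≤ k * 0.6931471808 :=
      mul_le_mul_of_nonneg_left hlog2'.le (by positivity)
    have h6 : ((k : ℝ) - 1) * 9 ≤ (k - 1) * Real.log k :=
      mul_le_mul_of_nonneg_left hlogk (by linarith)
    nlinarith
  -- key inequality: 4 X ≤ 30 (k - 2) log X
  have hkey : 4 * X ≤ 30 * ((k : ℝ) - 2) * Real.log X := by
    by_cases hXk : (k : ℝ) ≤ X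
    · have h1 : Real.log k ≤ Real.log X := Real.log_le_log (by linarith) hXk
      calc 4 * X ≤ 28 * k * Real.log k := by linarith
        _ ≤ 30 * ((k : ℝ) - 2) * Real.log k := by
            apply mul_le_mul_of_nonneg_right _ (by linarith)
            linarith
        _ ≤ 30 * ((k : ℝ) - 2) * Real.log X := by
            apply mul_le_mul_of_nonneg_left h1; linarith
    · push Not at hXk
      calc 4 * X ≤ 30 * ((k : ℝ) - 2) * 1 := by linarith
        _ ≤ 30 * ((k : ℝ) - 2) * Real.log X := by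
            apply mul_le_mul_of_nonneg_left hlogX; linarith
  refine ⟨n, hnk, ?_⟩
  intro p hp hpd
  have hpv : (p : ℝ) ≤ (v : ℝ) ^ 4 := by exact_mod_cast hn3 p hp hpd
  refine hpv.trans ?_
  rw [Real.rpow_def_of_pos hnpos]
  have hX0 : 0 < X := by linarith
  have h1 : 4 * Real.log v ≤ Real.log n * (30 * Real.log X / X) := by
    have h2 : 4 ≤ ((k : ℝ) - 2) * (30 * Real.log X / X) := by
      rw [mul_div_assoc', le_div_iff₀ hX0]
      linarith
    calc 4 * Real.log v ≤ ((k : ℝ) - 2) * (30 * Real.log X / X) * Real.log v :=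
          mul_le_mul_of_nonneg_right h2 (by linarith)
      _ = (((k : ℝ) - 2) * Real.log v) * (30 * Real.log X / X) := by ring
      _ ≤ Real.log n * (30 * Real.log X / X) := by
          apply mul_le_mul_of_nonneg_right hlogn_lo
          positivity
  calc (v : ℝ) ^ 4 = Real.exp (4 * Real.log v) := by
        rw [show 4 * Real.log v = Real.log ((v : ℝ) ^ 4) by rw [Real.log_pow]; push_cast; ring,
          Real.exp_log (by positivity)]
    _ ≤ _ := Real.exp_le_exp.2 h1

end Pool.Agent.Lib.MP_bdd9a3_nt
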